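import Pool.Agent.Lib.MP_5c318e_ag.C.Psi

/-! The logarithmic volume density of a tower and its polydiscs: definitions. -/

set_option autoImplicit false

namespace Pool.Agent.Lib.MP_5c318e_ag.Tw

open MeasureTheory Metric

noncomputable section

variable {R P ι : Type} [CommRing R] [Fintype ι]

/-- the size of the point `a` over the parameter `b`; it is at least `2` -/
def sz (ev : P → R →+* ℂ) (s0 : P → ℝ) (Δ : MvPolynomial ι R) (b : P) (a : ι → ℂ) : ℝ :=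
  2 + s0 b + Real.log (1 + ‖a‖ + ‖MvPolynomial.eval₂ (ev b) a Δ‖⁻¹)

/-- `u` is a sum of squares of norms of fractions with denominator a power of `Δ` -/
def SS (ev : P → R →+* ℂ) (Δ : MvPolynomial ι R) (u : P → (ι → ℂ) → ℝ) : Prop :=
  ∃ (α : Type) (_ : Fintype α) (f : α → MvPolynomial ι R) (j : ℕ), ∀ b a,
    MvPolynomial.eval₂ (ev b) a Δ ≠ 0 →
      u b a = ∑ i, ‖MvPolynomial.eval₂ (ev b) a (f i) / MvPolynomial.eval₂ (ev b) a Δ ^ j‖ ^ 2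

/-- a polydisc centred at `a` whose volume element is at least `J` -/
structure Pd (a : ι → ℂ) (J : ℝ) (Q : (ι → ℂ) → ι → ℂ) : Prop where
  zero : Q 0 = a
  hol : DifferentiableOn ℂ Q (ball 0 1)
  int : ∀ F : (ι → ℂ) → ENNReal, Measurable F →
    ENNReal.ofReal J * ∫⁻ w in ball 0 1, F (Q w) ≤ ∫⁻ x, F x
  jac : J ≤ ‖(fderiv ℂ Q 0).det‖ ^ 2

/-- `Λ` is a logarithmic volume density on the complement of `Δ = 0`, uniformly in the parameter -/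
structure Tow (ev : P → R →+* ℂ) (s0 : P → ℝ) (Δ : MvPolynomial ι R) (Λ : P → (ι → ℂ) → ℝ)
    (K : ℝ) (M : ℕ) : Prop where
  one_le : 1 ≤ K
  meas : ∀ b, Measurable (Λ b)
  pos : ∀ b a, MvPolynomial.eval₂ (ev b) a Δ ≠ 0 → 0 < Λ b a
  low : ∀ b a, MvPolynomial.eval₂ (ev b) a Δ ≠ 0 → 1 ≤ K * Λ b a * ∏ i, ‖a i‖ ^ 2
  alg : ∃ N : ℕ, 0 < N ∧ SS ev Δ fun b a => Λ b a ^ N
  mass : ∀ b, ∫⁻ a in {a | MvPolynomial.eval₂ (ev b) a Δ ≠ 0},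
    ENNReal.ofReal (Λ b a / sz ev s0 Δ b a ^ M) ≤ ENNReal.ofReal K
  disc : ∀ b a, MvPolynomial.eval₂ (ev b) a Δ ≠ 0 → ∃ J Q, Pd a J Q ∧
    1 ≤ J * Λ b a * sz ev s0 Δ b a ^ M ∧ ∀ w ∈ ball (0 : ι → ℂ) 1,
      MvPolynomial.eval₂ (ev b) (Q w) Δ ≠ 0 ∧ sz ev s0 Δ b (Q w) ≤ K * sz ev s0 Δ b a ∧
        Λ b (Q w) ≤ K * Λ b a ∧ Λ b a ≤ K * Λ b (Q w)

end

end Pool.Agent.Lib.MP_5c318e_ag.Tw
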