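import Mathlib

/-! One variable lemmas: oscillation of units, distance to the roots, separation of roots. -/

set_option autoImplicit false

namespace Pool.Agent.Lib.MP_5c318e_ag.Tw

open MeasureTheory Metric Polynomial Finset

noncomputable section

theorem osc1 {g : ℂ → ℂ} {r B : ℝ} (hB : 0 < B) (hr : 1 < r) (hd : DifferentiableOn ℂ g (ball 0 r))
    (h0 : ∀ t ∈ ball (0 : ℂ) r, g t ≠ 0) (hb : ∀ t ∈ ball (0 : ℂ) r, |Real.log ‖g t‖| ≤ B) :
    ∃ c : ℂ, g 1 = g 0 * Complex.exp c ∧ ‖c‖ ≤ 4 * B / (r - 1) := by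
  obtain ⟨φ, g0, hg⟩ := ((hd.deriv isOpen_ball).div hd h0).isExactOn_ball.with_val_at 0 0
  have m0 : (0 : ℂ) ∈ ball (0 : ℂ) r := mem_ball_self (by linarith)
  have m1 : (1 : ℂ) ∈ ball (0 : ℂ) r := by simpa using hr
  have gd : DifferentiableOn ℂ φ (ball 0 r) := fun t ht =>
    (hg t ht).differentiableAt.differentiableWithinAt
  have hφ : ∀ t ∈ ball (0 : ℂ) r, HasDerivAt (fun t => g t * Complex.exp (-φ t)) 0 t :=
    fun t ht => by
      refine (((hd.differentiableAt (isOpen_ball.mem_nhds ht)).hasDerivAt).fun_mul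
        (hg t ht).fun_neg.cexp).congr_deriv ?_
      have := h0 t ht
      simp only [Pi.div_apply]
      field_simp
      ring
  have key : ∀ t ∈ ball (0 : ℂ) r, g t = g 0 * Complex.exp (φ t) := fun t ht => by
    have := isOpen_ball.is_const_of_deriv_eq_zero (convex_ball _ _).isPreconnected
      (fun t ht => (hφ t ht).differentiableAt.differentiableWithinAt)
      (fun t ht => (hφ t ht).deriv) ht m0
    rw [g0, neg_zero, Complex.exp_zero, mul_one] at this
    rw [← this, mul_assoc, ← Complex.exp_add, neg_add_cancel, Complex.exp_zero, mul_one]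
  refine ⟨φ 1, key 1 m1, (Complex.borelCaratheodory_zero (M := 2 * B) (by linarith) gd
    (fun z hz => ?_) (by linarith) m1 g0).trans_eq (by rw [norm_one]; ring)⟩
  have h1 := hb z hz
  have h2 := hb 0 m0
  rw [key z hz, norm_mul, Complex.norm_exp,
    Real.log_mul (norm_ne_zero_iff.2 (h0 0 m0)) (Real.exp_ne_zero _), Real.log_exp] at h1
  change (φ z).re ≤ 2 * B
  linarith [(abs_le.1 h1).2, (abs_le.1 h2).1]

/-- a unit of logarithmic size `B` is almost constant on the ball of radius `1 / (8 B)` -/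
theorem osc {E : Type} [NormedAddCommGroup E] [NormedSpace ℂ E] {h : E → ℂ} {B : ℝ} (hB : 1 ≤ B)
    (hd : DifferentiableOn ℂ h (ball 0 1)) (h0 : ∀ w ∈ ball (0 : E) 1, h w ≠ 0)
    (hb : ∀ w ∈ ball (0 : E) 1, |Real.log ‖h w‖| ≤ B) {w : E} (hw : ‖w‖ * (8 * B) ≤ 1) :
    ‖h w - h 0‖ ≤ 16 * B * ‖w‖ * ‖h 0‖ := by
  rcases eq_or_ne w 0 with rfl | hw0
  · simp
  have n0 := norm_pos_iff.2 hw0
  have mem : ∀ t ∈ ball (0 : ℂ) ‖w‖⁻¹, t • w ∈ ball (0 : E) 1 := fun t ht => by
    rw [mem_ball_zero_iff] at ht ⊢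
    rw [norm_smul, ← div_eq_one_iff_eq n0.ne' |>.2 rfl, lt_div_iff₀ n0]
    have := mul_lt_mul_of_pos_right ht (mul_pos n0 n0)
    rw [← mul_assoc, ← mul_assoc, inv_mul_cancel₀ n0.ne', one_mul] at this
    exact this
  have h8 : ‖w‖ * 8 ≤ 1 := by nlinarith
  obtain ⟨c, e, hc⟩ := osc1 (g := fun t => h (t • w)) (r := ‖w‖⁻¹) (B := B) (by linarith)
    ((one_lt_inv₀ n0).2 (by linarith))
    (hd.comp (differentiable_id.smul_const w).differentiableOn mem) (fun t ht => h0 _ (mem t ht))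
    fun t ht => hb _ (mem t ht)
  simp only [one_smul, zero_smul] at e
  have k : ‖c‖ ≤ 8 * B * ‖w‖ := hc.trans (by
    rw [div_le_iff₀ (sub_pos.2 ((one_lt_inv₀ n0).2 (by linarith))), mul_sub,
      mul_assoc (8 * B), mul_inv_cancel₀ n0.ne']
    nlinarith)
  rw [e, ← mul_sub_one, norm_mul, mul_comm]
  refine mul_le_mul_of_nonneg_right ((Complex.norm_exp_sub_one_le (by linarith)).trans ?_)
    (norm_nonneg _)
  linarith

/-- the density attached to a polynomial of degree `d` -/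
def lam (d : ℕ) (p : ℂ[X]) (s : ℂ) : ℝ :=
  (∑ i ∈ range d, ‖(hasseDeriv (i + 1) p).eval s / p.eval s‖ ^ (2 * (d.factorial / (i + 1)))) ^
    ((d.factorial : ℝ)⁻¹)

theorem lam_nonneg (d : ℕ) (p : ℂ[X]) (s : ℂ) : 0 ≤ lam d p s :=
  Real.rpow_nonneg (sum_nonneg fun _ _ => by positivity) _

theorem lam_pow (d : ℕ) (p : ℂ[X]) (s : ℂ) : lam d p s ^ d.factorial =
    ∑ i ∈ range d, ‖(hasseDeriv (i + 1) p).eval s / p.eval s‖ ^ (2 * (d.factorial / (i + 1))) :=
  Real.rpow_inv_natCast_pow (sum_nonneg fun _ _ => by positivity) d.factorial_ne_zero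

theorem lam_mul_pow (d : ℕ) (p : ℂ[X]) (s : ℂ) (r : ℝ) : (lam d p s * r ^ 2) ^ d.factorial =
    ∑ i ∈ range d, (‖(hasseDeriv (i + 1) p).eval s / p.eval s‖ * r ^ (i + 1)) ^
      (2 * (d.factorial / (i + 1))) := by
  rw [mul_pow, lam_pow, sum_mul]
  refine sum_congr rfl fun i hi => ?_
  rw [mul_pow, ← pow_mul, ← pow_mul, mul_left_comm (i + 1),
    Nat.mul_div_cancel' (Nat.dvd_factorial i.succ_pos (mem_range.1 hi))]

theorem coeff_prod_le {κ : Type} (T : Finset κ) {u : κ → ℂ} {r : ℝ} (hr : 0 ≤ r)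
    (h : ∀ j ∈ T, r ≤ ‖u j‖) (i : ℕ) :
    ‖(∏ j ∈ T, (X + C (u j))).coeff i‖ * r ^ i ≤ 2 ^ T.card * ‖∏ j ∈ T, u j‖ := by
  classical
  induction T using Finset.induction_on generalizing i with
  | empty => cases i <;> simp [coeff_one]
  | insert a T ha ih =>
    have ih' := ih fun j hj => h j (mem_insert_of_mem hj)
    have h1 := h a (mem_insert_self _ _)
    have p0 : 0 ≤ 2 ^ T.card * ‖∏ j ∈ T, u j‖ := by positivity
    rw [prod_insert ha, prod_insert ha, card_insert_of_notMem ha, add_mul, coeff_add, coeff_C_mul,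
      norm_mul, pow_succ]
    have k1 := mul_le_mul_of_nonneg_left (ih' i) (norm_nonneg (u a))
    have k2 : ‖(X * ∏ j ∈ T, (X + C (u j))).coeff i‖ * r ^ i ≤
        ‖u a‖ * (2 ^ T.card * ‖∏ j ∈ T, u j‖) := by
      cases i with
      | zero => simpa using mul_nonneg (norm_nonneg (u a)) p0
      | succ i =>
        rw [coeff_X_mul, pow_succ, ← mul_assoc, mul_comm]
        exact mul_le_mul h1 (ih' i) (by positivity) (norm_nonneg _)
    refine (mul_le_mul_of_nonneg_right (norm_add_le _ _) (by positivity)).trans ?_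
    rw [norm_mul]
    linarith

variable {d : ℕ} {ρ : Fin d → ℂ} {l s : ℂ} {r : ℝ}

theorem eval_fac (l s : ℂ) (ρ : Fin d → ℂ) :
    (C l * Lagrange.nodal univ ρ).eval s = l * ∏ j, (s - ρ j) := by
  rw [eval_mul, eval_C, Lagrange.eval_nodal]

theorem lam_up (hr : 0 < r) (h : ∀ j, r ≤ ‖s - ρ j‖) (hl : l ≠ 0) :
    lam d (C l * Lagrange.nodal univ ρ) s * r ^ 2 ≤ (d + 1) * 4 ^ d := by
  have n0 : ∏ j, (s - ρ j) ≠ 0 := prod_ne_zero_iff.2 fun j _ => norm_pos_iff.1 (hr.trans_le (h j))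
  have k : ∀ i, ‖(hasseDeriv i (C l * Lagrange.nodal univ ρ)).eval s /
      (C l * Lagrange.nodal univ ρ).eval s‖ * r ^ i ≤ 2 ^ d := fun i => by
    have e : taylor s (Lagrange.nodal univ ρ) = ∏ j, (X + C (s - ρ j)) := by
      rw [← coe_taylorAlgHom, Lagrange.nodal_eq]
      erw [map_prod (taylorAlgHom s)]
      refine prod_congr rfl fun j _ => ?_
      simp [taylorAlgHom, add_sub_assoc]
    rw [← taylor_coeff, taylor_mul, taylor_C, coeff_C_mul, eval_fac, mul_div_mul_left _ _ hl, e,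
      norm_div, div_mul_eq_mul_div, div_le_iff₀ (norm_pos_iff.2 n0)]
    simpa using coeff_prod_le univ hr.le (fun j _ => h j) i
  refine le_of_pow_le_pow_left₀ d.factorial_ne_zero (by positivity) ?_
  rw [lam_mul_pow, mul_pow]
  refine (sum_le_card_nsmul _ _ (((4 : ℝ) ^ d) ^ d.factorial) fun i _ => ?_).trans ?_
  · refine (pow_le_pow_left₀ (by positivity) (k _) _).trans ?_
    rw [show (4 : ℝ) = 2 ^ 2 by norm_num, ← pow_mul, ← pow_mul, ← pow_mul]
    refine pow_le_pow_right₀ one_le_two ?_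
    have := Nat.mul_le_mul_left (2 * d) (Nat.div_le_self d.factorial (i + 1))
    linarith
  · rw [card_range, nsmul_eq_mul]
    refine mul_le_mul_of_nonneg_right ?_ (by positivity)
    have : (0 : ℝ) ≤ d := Nat.cast_nonneg _
    exact le_trans (by linarith) (le_self_pow₀ (by linarith) d.factorial_ne_zero)

theorem lam_low {j : Fin d} (h : ‖s - ρ j‖ ≤ r) (h0 : (C l * Lagrange.nodal univ ρ).eval s ≠ 0) :
    1 ≤ d ^ 2 * (lam d (C l * Lagrange.nodal univ ρ) s * r ^ 2) := by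
  set p := C l * Lagrange.nodal univ ρ with hp
  have hr : 0 ≤ r := (norm_nonneg _).trans h
  have d0 : (0 : ℝ) < d := Nat.cast_pos.2 j.pos
  have d1 : (1 : ℝ) ≤ d := Nat.one_le_cast.2 j.pos
  have hd : (taylor s p).natDegree < d + 1 := by
    rw [natDegree_taylor, hp]
    exact Nat.lt_succ_of_le ((natDegree_C_mul_le _ _).trans (by simp))
  have e : (taylor s p).eval (ρ j - s) = 0 := by
    rw [taylor_eval, sub_add_cancel, hp, eval_mul, Lagrange.eval_nodal_at_node (mem_univ j),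
      mul_zero]
  rw [eval_eq_sum_range' hd, sum_range_succ', taylor_coeff_zero, pow_zero, mul_one] at e
  have k : ∑ _i ∈ range d, (d : ℝ)⁻¹ ≤
      ∑ i ∈ range d, ‖(hasseDeriv (i + 1) p).eval s / p.eval s‖ * r ^ (i + 1) := by
    rw [sum_const, card_range, nsmul_eq_mul, mul_inv_cancel₀ d0.ne']
    have e2 : (1 : ℝ) = ‖∑ i ∈ range d,
        (hasseDeriv (i + 1) p).eval s / p.eval s * (ρ j - s) ^ (i + 1)‖ := by
      simp only [div_mul_eq_mul_div, ← taylor_coeff]
      rw [← sum_div, eq_neg_of_add_eq_zero_left e, neg_div, div_self h0, norm_neg, norm_one]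
    rw [e2]
    refine norm_sum_le_of_le _ fun i _ => ?_
    rw [norm_mul, norm_pow, norm_sub_rev]
    exact mul_le_mul_of_nonneg_left (pow_le_pow_left₀ (norm_nonneg _) h _) (norm_nonneg _)
  obtain ⟨i, hi, k2⟩ := exists_le_of_sum_le (nonempty_range_iff.2 j.pos.ne') k
  rw [← inv_mul_le_iff₀ (by positivity), mul_one]
  refine le_of_pow_le_pow_left₀ d.factorial_ne_zero
    (mul_nonneg (lam_nonneg _ _ _) (by positivity)) ?_
  rw [lam_mul_pow]
  refine le_trans ?_ (single_le_sum (f := fun i => (‖(hasseDeriv (i + 1) p).eval s / p.eval s‖ *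
    r ^ (i + 1)) ^ (2 * (d.factorial / (i + 1)))) (fun _ _ => by positivity) hi)
  refine le_trans ?_ (pow_le_pow_left₀ (by positivity) k2 _)
  rw [← inv_pow, ← pow_mul]
  exact pow_le_pow_of_le_one (by positivity) (inv_le_one_of_one_le₀ d1)
    (Nat.mul_le_mul_left 2 (Nat.div_le_self _ _))

/-- the derivative at a root is small if another root is close -/
theorem deriv_le {M : ℝ} (hM : 1 ≤ M) (h : ∀ j, ‖ρ j‖ ≤ M) {i j : Fin d} (hij : i ≠ j) :
    ‖(derivative (C l * Lagrange.nodal univ ρ)).eval (ρ i)‖ ≤ ‖l‖ * ‖ρ i - ρ j‖ * (2 * M) ^ d := by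
  rw [derivative_C_mul, eval_mul, eval_C, Lagrange.eval_nodal_derivative_eval_node_eq (mem_univ i),
    Lagrange.eval_nodal, ← mul_prod_erase _ _ (mem_erase.2 ⟨hij.symm, mem_univ j⟩), norm_mul,
    norm_mul, mul_assoc, norm_prod]
  gcongr
  refine ((prod_le_prod (fun _ _ => norm_nonneg _) fun k _ => ?_).trans_eq
    (prod_const (2 * M))).trans (pow_le_pow_right₀ (by linarith) ?_)
  · linarith [norm_sub_le (ρ i) (ρ k), h i, h k]
  · simpa using card_le_univ ((univ.erase i).erase j)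

/-- the value is small near a root -/
theorem eval_le {M : ℝ} (hM : 1 ≤ M) (h : ∀ j, ‖s - ρ j‖ ≤ M) (j : Fin d) :
    ‖(C l * Lagrange.nodal univ ρ).eval s‖ ≤ ‖l‖ * ‖s - ρ j‖ * M ^ d := by
  rw [eval_fac, ← mul_prod_erase _ _ (mem_univ j), norm_mul, norm_mul, mul_assoc, norm_prod]
  gcongr
  refine ((prod_le_prod (fun _ _ => norm_nonneg _) fun k _ => h k).trans_eq
    (prod_const M)).trans (pow_le_pow_right₀ hM ?_)
  exact (card_le_univ _).trans_eq (Fintype.card_fin d)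

/-- the model integrand -/
def ker (z : ℂ) : ENNReal := ENNReal.ofReal (1 / (‖z‖ ^ 2 * (1 + |Real.log ‖z‖|) ^ 2))

theorem meas_ker : Measurable ker := by unfold ker; fun_prop

theorem lint_ker : ∫⁻ z, ker z < ⊤ := by
  let A : ℤ → Set ℂ := fun k => {z | ⌊Real.log ‖z‖⌋ = k} \ {0}
  have hc : ∫⁻ z, ker z ≤ ∑' k, ∫⁻ z in A k, ker z := by
    refine le_trans ?_ (lintegral_iUnion_le A ker)
    rw [← setLIntegral_univ]
    refine lintegral_mono_set' ?_
    filter_upwards [compl_mem_ae_iff.2 (measure_singleton (0 : ℂ))] with z hz _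
    exact Set.mem_iUnion.2 ⟨_, rfl, hz⟩
  have hs : Summable fun k : ℤ => Real.pi * Real.exp 2 * (4 / (1 + |(k : ℝ)|) ^ 2) := by
    refine Summable.mul_left _ (Summable.of_norm_bounded_eventually
      ((Real.summable_one_div_int_pow.2 one_lt_two).mul_left 4) ?_)
    filter_upwards [(Set.finite_singleton (0 : ℤ)).compl_mem_cofinite] with k hk
    have k0 : (k : ℝ) ≠ 0 := Int.cast_ne_zero.2 hk
    rw [Real.norm_of_nonneg (by positivity), mul_one_div, ← sq_abs (k : ℝ)]
    gcongr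
    linarith
  refine hc.trans_lt (lt_of_le_of_lt (ENNReal.tsum_le_tsum fun k => ?_)
    (hs.tsum_ofReal_lt_top))
  have b : ∀ z ∈ A k, Real.exp k ≤ ‖z‖ ∧ ‖z‖ < Real.exp (k + 1) ∧
      1 + |(k : ℝ)| ≤ 2 * (1 + |Real.log ‖z‖|) := fun z hz => by
    have n0 := norm_pos_iff.2 hz.2
    have h1 := Int.floor_le (Real.log ‖z‖)
    have h2 := Int.lt_floor_add_one (Real.log ‖z‖)
    rw [show ⌊Real.log ‖z‖⌋ = k from hz.1] at h1 h2
    refine ⟨(Real.le_log_iff_exp_le n0).1 h1, (Real.log_lt_iff_lt_exp n0).1 h2, ?_⟩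
    have := abs_nonneg (Real.log ‖z‖)
    have := le_abs_self (Real.log ‖z‖)
    have := neg_abs_le (Real.log ‖z‖)
    have : |(k : ℝ)| ≤ 1 + |Real.log ‖z‖| := abs_le.2 ⟨by linarith, by linarith⟩
    linarith
  have hA : MeasurableSet (A k) :=
    (measurableSet_eq_fun (by fun_prop) measurable_const).diff (measurableSet_singleton _)
  refine (setLIntegral_mono' hA (g := fun _ =>
    ENNReal.ofReal (4 / (Real.exp k ^ 2 * (1 + |(k : ℝ)|) ^ 2))) fun z hz => ?_).trans ?_
  · obtain ⟨h1, -, h3⟩ := b z hz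
    have n0 := norm_pos_iff.2 hz.2
    refine ENNReal.ofReal_le_ofReal ?_
    rw [div_le_div_iff₀ (by positivity) (by positivity)]
    have := mul_le_mul (pow_le_pow_left₀ (by positivity) h1 2)
      (pow_le_pow_left₀ (by positivity) h3 2) (by positivity) (by positivity)
    linarith
  · rw [setLIntegral_const]
    refine (mul_le_mul_right (measure_mono (t := ball 0 (Real.exp (k + 1)))
      fun z hz => mem_ball_zero_iff.2 (b z hz).2.1) _).trans_eq ?_
    rw [Complex.volume_ball, ← ENNReal.ofReal_pow (by positivity), ← NNReal.coe_real_pi,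
      ← ENNReal.ofReal_coe_nnreal, ← ENNReal.ofReal_mul (by positivity),
      ← ENNReal.ofReal_mul (by positivity), Real.exp_add,
      show Real.exp 2 = Real.exp 1 ^ 2 by rw [← Real.exp_nat_mul]; norm_num]
    congr 1
    field_simp

end

end Pool.Agent.Lib.MP_5c318e_ag.Tw
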