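import Pool.Agent.Lib.MP_5c318e_ag.Tw.Bas
import Pool.Agent.Lib.MP_5c318e_ag.Tw.One
import Pool.Agent.Lib.MP_5c318e_ag.Bg.Sub
import Pool.Agent.Lib.MP_5c318e_ag.S.ModA

/-! Polydiscs on finite coverings, and the tail of the tower weight. -/

set_option autoImplicit false

namespace Pool.Agent.Lib.MP_5c318e_ag.Tw

open MeasureTheory Metric Set

variable {R P ι : Type} [CommRing R] [Fintype ι]
  {S : Type} [TopologicalSpace S] [MeasurableSpace S] [BorelSpace S] [T2Space S]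
  [SecondCountableTopology S] {D : RD ι S}

/-- a lift of a polydisc controls integrals -/
theorem Pd.int_lift {a : ι → ℂ} {J : ℝ} {Q : (ι → ℂ) → ι → ℂ} (h : Pd a J Q) {σ : (ι → ℂ) → S}
    (e : ∀ w ∈ ball (0 : ι → ℂ) 1, D.π (σ w) = Q w) {F : S → ENNReal} (hF : Measurable F) :
    ENNReal.ofReal J * ∫⁻ w in ball 0 1, F (σ w) ≤ ∫⁻ x, F x ∂D.μ := by
  classical
  have := D.wlc
  obtain ⟨m, k⟩ := D.lint_fib hF
  rw [k]
  refine le_trans (mul_le_mul_right (setLIntegral_mono' measurableSet_ball fun w hw => ?_) _)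
    (h.int _ m)
  exact ENNReal.le_tsum (f := fun p : D.π ⁻¹' {Q w} => F p) ⟨σ w, e w hw⟩

/-- lifting a polydisc to a finite covering -/
theorem Pd.lift (C : D.Cov) {p : S} {J : ℝ} {Q : (ι → ℂ) → ι → ℂ} (h : Pd (D.π p) J Q)
    (hs : ∀ w ∈ ball (0 : ι → ℂ) 1, MvPolynomial.eval (Q w) C.Δ ≠ 0) :
    ∃ σ : (ι → ℂ) → S, σ 0 = p ∧ ContinuousOn σ (ball 0 1) ∧
      (∀ w ∈ ball (0 : ι → ℂ) 1, D.π (σ w) = Q w) ∧
      (∀ u : S → ℂ, D.Hol u → DifferentiableOn ℂ (fun w => u (σ w)) (ball 0 1)) ∧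
      ∀ F : S → ENNReal, Measurable F →
        ENNReal.ofReal J * ∫⁻ w in ball 0 1, F (σ w) ≤ ∫⁻ x, F x ∂D.μ := by
  classical
  have m0 : (0 : ι → ℂ) ∈ ball (0 : ι → ℂ) 1 := mem_ball_self one_pos
  have := (convex_ball (0 : ι → ℂ) 1).contractibleSpace ⟨_, m0⟩
  have := (isOpen_ball (x := (0 : ι → ℂ)) (ε := 1)).locallyPathConnectedSpace
  obtain ⟨G, ⟨h0, hG⟩, -⟩ := C.covering.existsUnique_continuousMap_lifts
    (⟨_, continuousOn_iff_continuous_domRestrict.1 h.hol.continuousOn⟩ : C(ball (0 : ι → ℂ) 1, ι → ℂ))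
    (a₀ := ⟨_, m0⟩) (e₀ := p) h.zero.symm fun a => hs a a.2
  let σ : (ι → ℂ) → S := fun a => if k : a ∈ ball (0 : ι → ℂ) 1 then G ⟨a, k⟩ else p
  have c : ContinuousOn σ (ball 0 1) := by
    rw [continuousOn_iff_continuous_domRestrict]
    exact G.continuous.congr fun a => by simp only [σ, domRestrict_apply, dif_pos a.2]
  have e : ∀ w ∈ ball (0 : ι → ℂ) 1, D.π (σ w) = Q w := fun w hw => by
    simp only [σ, dif_pos hw]; exact congrFun hG _
  exact ⟨σ, (dif_pos m0).trans h0, c, e, fun u hu w hw => (Bg.hol_map hu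
    (c.continuousAt (isOpen_ball.mem_nhds hw))
    ((h.hol.differentiableAt (isOpen_ball.mem_nhds hw)).congr_of_eventuallyEq
      (Filter.mem_of_superset (isOpen_ball.mem_nhds hw) e))).differentiableWithinAt,
    fun F hF => h.int_lift e hF⟩

theorem lint_le {d : ℕ} (hd : ∀ a, (D.π ⁻¹' {a}).encard ≤ d) {U : Set (ι → ℂ)}
    (hU : MeasurableSet U) (hs : ∀ p, D.π p ∈ U) {F : (ι → ℂ) → ENNReal} (hF : Measurable F) :
    ∫⁻ p, F (D.π p) ∂D.μ ≤ d * ∫⁻ z in U, F z := by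
  classical
  have := D.wlc
  rw [(D.lint_fib (G := fun p => F (D.π p)) (hF.comp D.cont_π.measurable)).2,
    ← lintegral_indicator hU, ← lintegral_const_mul _ (hF.indicator hU)]
  refine lintegral_mono fun z => ?_
  have e : ∀ p : D.π ⁻¹' {z}, F (D.π p) = U.indicator F z := fun p =>
    (indicator_of_mem (hs p) F).symm.trans (congrArg _ p.2)
  simp only [e, ENNReal.tsum_const]
  refine mul_le_mul_left ?_ _
  have := hd z
  rw [encard] at this
  exact_mod_cast ENat.toENNReal_le.2 this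

variable {ev : P → R →+* ℂ} {s0 : P → ℝ} {Δ : MvPolynomial ι R} {Λ : P → (ι → ℂ) → ℝ} {K : ℝ}
  {M : ℕ}

/-- the mass of the density on a covering -/
theorem Tow.mass_cov (h : Tow ev s0 Δ Λ K M) (b : P) {d : ℕ} (hd : ∀ a, (D.π ⁻¹' {a}).encard ≤ d)
    (hs : ∀ p, MvPolynomial.eval₂ (ev b) (D.π p) Δ ≠ 0) :
    ∫⁻ p, ENNReal.ofReal (Λ b (D.π p) / sz ev s0 Δ b (D.π p) ^ M) ∂D.μ ≤
      ENNReal.ofReal (d * K) := by
  rw [ENNReal.ofReal_mul (Nat.cast_nonneg _), ENNReal.ofReal_natCast]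
  exact (lint_le hd (isOpen_ne_fun (meas_val Δ b) continuous_const).measurableSet hs
    (F := fun a => ENNReal.ofReal (Λ b a / sz ev s0 Δ b a ^ M))
    ((h.meas b).div ((meas_sz b).pow_const _)).ennreal_ofReal).trans (mul_le_mul_right (h.mass b) _)

/-- the tail of the weight -/
theorem Tow.tail (h : Tow ev s0 Δ Λ K M) (h0 : ∀ b, 0 ≤ s0 b) (b : P) {d : ℕ}
    (hd : ∀ a, (D.π ⁻¹' {a}).encard ≤ d) (hs : ∀ p, MvPolynomial.eval₂ (ev b) (D.π p) Δ ≠ 0)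
    {ρ : S → ℝ} (hρ : Measurable ρ) (ρ0 : ∀ p, 0 ≤ ρ p) {γ : ℝ} (γ0 : 0 < γ) (γ1 : γ < 1) :
    ∫⁻ p, ENNReal.ofReal (Λ b (D.π p) ^ γ * ρ p ^ (1 - γ)) ∂D.μ ≤ ENNReal.ofReal (d * K) ^ γ *
      (∫⁻ p, ENNReal.ofReal (sz ev s0 Δ b (D.π p) ^ (M * γ / (1 - γ)) * ρ p) ∂D.μ) ^ (1 - γ) := by
  have m1 : Measurable fun p => sz ev s0 Δ b (D.π p) := (meas_sz b).comp D.cont_π.measurable
  have m2 : Measurable fun p => Λ b (D.π p) := (h.meas b).comp D.cont_π.measurable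
  have g : 0 < 1 - γ := by linarith
  refine le_trans (lintegral_mono fun p => le_of_eq ?_) ((ENNReal.lintegral_mul_norm_pow_le
    (m2.div (m1.pow_const M)).ennreal_ofReal.aemeasurable
    ((m1.pow_const (M * γ / (1 - γ))).mul hρ).ennreal_ofReal.aemeasurable γ0.le g.le
    (by ring)).trans (mul_le_mul_left (ENNReal.rpow_le_rpow (h.mass_cov b hd hs) γ0.le) _))
  have l0 := h.pos b _ (hs p)
  have l1 : 0 < sz ev s0 Δ b (D.π p) := two_pos.trans_le (two_le_sz h0 _ _)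
  have l2 := ρ0 p
  simp only [Pi.div_apply, Pi.mul_apply]
  rw [ENNReal.ofReal_rpow_of_nonneg (by positivity) γ0.le,
    ENNReal.ofReal_rpow_of_nonneg (by positivity) g.le, ← ENNReal.ofReal_mul (by positivity),
    Real.div_rpow l0.le (by positivity), Real.mul_rpow (by positivity) l2, ← Real.rpow_mul l1.le,
    div_mul_cancel₀ _ g.ne', ← Real.rpow_natCast, ← Real.rpow_mul l1.le, ← mul_assoc,
    div_mul_cancel₀ _ (by positivity)]

end Pool.Agent.Lib.MP_5c318e_ag.Tw
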