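import Pool.Agent.Lib.MP_5c318e_ag.Tw.Step
import Pool.Agent.Lib.MP_5c318e_ag.Tw.Lift

/-! Existence of towers. -/

set_option autoImplicit false

namespace Pool.Agent.Lib.MP_5c318e_ag.Tw

open MeasureTheory Metric Polynomial

variable {R P ι : Type} [CommRing R] [Fintype ι] {ev : P → R →+* ℂ} {s0 : P → ℝ}

theorem tow_zero (g : MvPolynomial (Fin 0) R) : Tow ev s0 g (fun _ _ => 1) 1 0 := by
  refine ⟨le_rfl, fun _ => measurable_const, fun _ _ _ => one_pos, fun _ _ _ => by simp,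
    ⟨1, one_pos, SS.one.congr fun _ _ _ => by simp⟩, fun b => ?_, fun b a ha => ?_⟩
  · refine (setLIntegral_le_lintegral _ _).trans ?_
    simp [volume_pi]
  · refine ⟨1, id, ⟨Subsingleton.elim _ _, differentiableOn_id, fun F _ => ?_, ?_⟩, by simp,
      fun w _ => ?_⟩
    · simpa using setLIntegral_le_lintegral _ _
    · simp [ContinuousLinearMap.det]
    · rw [show id w = a from Subsingleton.elim _ _]
      exact ⟨ha, by simp, by simp, by simp⟩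

theorem exists_fin [IsDomain R] [CharZero R] (h0 : ∀ b, 0 ≤ s0 b)
    (hmd : ∀ φ, Md s0 fun b => ‖ev b φ‖) (n : ℕ) {g : MvPolynomial (Fin n) R} (hg : g ≠ 0) :
    ∃ (Δ : MvPolynomial (Fin n) R) (Λ : P → (Fin n → ℂ) → ℝ) (K : ℝ) (M : ℕ),
      Δ ≠ 0 ∧ g ∣ Δ ∧ Tow ev s0 Δ Λ K M := by
  induction n with
  | zero => exact ⟨g, _, _, _, hg, dvd_rfl, tow_zero g⟩
  | succ n ih =>
    obtain ⟨q, u, v, e, c, N, e0, c0, q0, qz, N0, h1, h2⟩ :=
      sqf ((map_ne_zero_iff _ (MvPolynomial.finSuccEquiv R n).injective).2 hg)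
    have q1 : q ≠ 0 := ne_zero_of_natDegree_gt q0
    obtain ⟨Δ', Λ', K', M', d0, d1, T⟩ :=
      ih (mul_ne_zero (mul_ne_zero e0 c0) (leadingCoeff_ne_zero.2 q1))
    obtain ⟨K, M, T'⟩ := step ⟨rfl, q0, (dvd_mul_left _ _).trans d1, ⟨u, v, e, h1,
      ((dvd_mul_right _ _).trans (dvd_mul_right _ _)).trans d1⟩, qz⟩ N0 h0 hmd T
    refine ⟨_, _, K, M, (map_ne_zero_iff _ (MvPolynomial.finSuccEquiv R n).symm.injective).2
      (mul_ne_zero (C_ne_zero.2 d0) (pow_ne_zero _ q1)), ?_, T'⟩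
    rw [← (MvPolynomial.finSuccEquiv R n).symm_apply_apply g]
    exact map_dvd _ (h2.trans (mul_dvd_mul_right (map_dvd C
      (((dvd_mul_left _ _).trans (dvd_mul_right _ _)).trans d1)) _))

variable {κ : Type} [Fintype κ]

theorem norm_comp (e : κ ≃ ι) (a : ι → ℂ) : ‖a ∘ e‖ = ‖a‖ :=
  le_antisymm (pi_norm_comp_le _ _) (by
    simpa [Function.comp_def] using pi_norm_comp_le (a ∘ e) e.symm)

theorem lint_comp (e : κ ≃ ι) (F : (κ → ℂ) → ENNReal) : ∫⁻ x, F x = ∫⁻ a : ι → ℂ, F (a ∘ e) :=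
  (volume_preserving_arrowCongr' e.symm (MeasurableEquiv.refl ℂ)
    (MeasurePreserving.id _)).lintegral_map_equiv F

theorem lint_comp_set (e : κ ≃ ι) (F : (κ → ℂ) → ENNReal) {U : Set (κ → ℂ)} {V : Set (ι → ℂ)}
    (hU : MeasurableSet U) (hV : MeasurableSet V) (h : ∀ a, a ∈ V ↔ a ∘ e ∈ U) :
    ∫⁻ x in U, F x = ∫⁻ a in V, F (a ∘ e) := by
  rw [← lintegral_indicator hU, ← lintegral_indicator hV, lint_comp e]
  refine lintegral_congr fun a => ?_
  by_cases k : a ∈ V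
  · rw [Set.indicator_of_mem k, Set.indicator_of_mem ((h a).1 k)]
  · rw [Set.indicator_of_notMem k, Set.indicator_of_notMem (mt (h a).2 k)]

theorem comp_mem (e : κ ≃ ι) (w : ι → ℂ) : w ∈ ball (0 : ι → ℂ) 1 ↔ w ∘ e ∈ ball (0 : κ → ℂ) 1 := by
  rw [mem_ball_zero_iff, mem_ball_zero_iff, norm_comp]

theorem Pd.equiv (e : κ ≃ ι) {a : ι → ℂ} {J : ℝ} {Q : (κ → ℂ) → κ → ℂ} (h : Pd (a ∘ e) J Q) :
    Pd a J fun w => Q (w ∘ e) ∘ e.symm := by
  let T : (ι → ℂ) ≃L[ℂ] (κ → ℂ) := (LinearEquiv.funCongrLeft ℂ ℂ e).toContinuousLinearEquiv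
  refine ⟨?_, T.symm.differentiable.comp_differentiableOn
    (h.hol.comp T.differentiableOn fun w => (comp_mem e w).1), fun F hF => ?_, ?_⟩
  · rw [show (0 : ι → ℂ) ∘ e = 0 from rfl, h.zero]; ext; simp
  · rw [lint_comp e.symm F, ← lint_comp_set e (fun w => F (Q w ∘ e.symm)) measurableSet_ball
      measurableSet_ball (comp_mem e)]
    exact h.int (fun x => F (x ∘ e.symm)) (hF.comp T.symm.continuous.measurable)
  · have d : HasFDerivAt (fun w => Q (w ∘ e) ∘ e.symm)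
        ((T.symm : (κ → ℂ) →L[ℂ] (ι → ℂ)) ∘L fderiv ℂ Q 0 ∘L (T : (ι → ℂ) →L[ℂ] (κ → ℂ))) 0 :=
      T.symm.hasFDerivAt.comp 0 (HasFDerivAt.comp (f := T) 0
        (h.hol.differentiableAt (ball_mem_nhds 0 one_pos)).hasFDerivAt T.hasFDerivAt)
    rw [d.fderiv]
    exact h.jac.trans_eq (congrArg (‖·‖ ^ 2)
      (LinearMap.det_conj (fderiv ℂ Q 0).toLinearMap T.symm.toLinearEquiv).symm)

theorem Tow.equiv (e : κ ≃ ι) {Δ : MvPolynomial κ R} {Λ : P → (κ → ℂ) → ℝ} {K : ℝ} {M : ℕ}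
    (h : Tow ev s0 Δ Λ K M) : Tow ev s0 (MvPolynomial.rename e Δ) (fun b a => Λ b (a ∘ e)) K M := by
  have s : ∀ b a, sz ev s0 (MvPolynomial.rename e Δ) b a = sz ev s0 Δ b (a ∘ e) := fun b a => by
    rw [sz, sz, MvPolynomial.eval₂_rename, norm_comp]
  refine ⟨h.one_le, fun b => (h.meas b).comp (measurable_pi_iff.2 fun i => measurable_pi_apply _),
    fun b a ha => h.pos b _ (by rwa [MvPolynomial.eval₂_rename] at ha), fun b a ha => ?_, ?_,
    fun b => ?_, fun b a ha => ?_⟩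
  · rw [← e.prod_comp]
    exact h.low b _ (by rwa [MvPolynomial.eval₂_rename] at ha)
  · obtain ⟨N, N0, α, _, f, j, k⟩ := h.alg
    refine ⟨N, N0, α, inferInstance, fun i => MvPolynomial.rename e (f i), j, fun b a ha => ?_⟩
    simp only [MvPolynomial.eval₂_rename] at ha ⊢
    exact k b _ ha
  · refine le_of_eq_of_le ?_ (h.mass b)
    rw [lint_comp_set e _ (isOpen_ne_fun (meas_val _ b) continuous_const).measurableSet
      (isOpen_ne_fun (meas_val (ev := ev) (MvPolynomial.rename e Δ) b)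
        (continuous_const (y := 0))).measurableSet
      fun a => by simp only [Set.mem_ofPred_eq, MvPolynomial.eval₂_rename]]
    simp only [s]
  · rw [MvPolynomial.eval₂_rename] at ha
    obtain ⟨J, Q, a1, a2, a3⟩ := h.disc b _ ha
    refine ⟨J, _, a1.equiv e, by rwa [s], fun w hw => ?_⟩
    have c : (Q (w ∘ e) ∘ e.symm) ∘ e = Q (w ∘ e) := by ext; simp
    simp only [s, MvPolynomial.eval₂_rename, c]
    exact a3 _ ((comp_mem e w).1 hw)

/-- every nonzero `g` has a multiple that carries a tower density -/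
theorem exists_tow [IsDomain R] [CharZero R] (ev : P → R →+* ℂ) {s0 : P → ℝ} (h0 : ∀ b, 0 ≤ s0 b)
    (hmd : ∀ φ, Md s0 fun b => ‖ev b φ‖) {g : MvPolynomial ι R} (hg : g ≠ 0) :
    ∃ (Δ : MvPolynomial ι R) (Λ : P → (ι → ℂ) → ℝ) (K : ℝ) (M : ℕ),
      Δ ≠ 0 ∧ g ∣ Δ ∧ Tow ev s0 Δ Λ K M := by
  let e := (Fintype.equivFin ι).symm
  obtain ⟨Δ, Λ, K, M, h1, h2, T⟩ := exists_fin h0 hmd _
    ((map_ne_zero_iff _ (MvPolynomial.rename_injective _ e.symm.injective)).2 hg)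
  refine ⟨_, _, K, M, (map_ne_zero_iff _ (MvPolynomial.rename_injective _ e.injective)).2 h1, ?_,
    T.equiv e⟩
  simpa [MvPolynomial.rename_rename] using map_dvd (MvPolynomial.rename e) h2

/-- the same with all coordinates dividing the multiple -/
theorem exists_tow' [IsDomain R] [CharZero R] (ev : P → R →+* ℂ) {s0 : P → ℝ} (h0 : ∀ b, 0 ≤ s0 b)
    (hmd : ∀ φ, Md s0 fun b => ‖ev b φ‖) {g : MvPolynomial ι R} (hg : g ≠ 0) :
    ∃ (Δ : MvPolynomial ι R) (Λ : P → (ι → ℂ) → ℝ) (K : ℝ) (M : ℕ),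
      Δ ≠ 0 ∧ g ∣ Δ ∧ (∏ i, MvPolynomial.X i) ∣ Δ ∧ Tow ev s0 Δ Λ K M :=
  let ⟨Δ, Λ, K, M, h1, h2, T⟩ := exists_tow ev h0 hmd (mul_ne_zero hg
    (Finset.prod_ne_zero_iff.2 fun i _ => MvPolynomial.X_ne_zero i))
  ⟨Δ, Λ, K, M, h1, (dvd_mul_right _ _).trans h2, (dvd_mul_left _ _).trans h2, T⟩

end Pool.Agent.Lib.MP_5c318e_ag.Tw
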