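import Pool.Agent.Lib.MP_5c318e_ag.Tw.TDefs

/-! Sizes, sums of squares, and operations on polydiscs. -/

set_option autoImplicit false

namespace Pool.Agent.Lib.MP_5c318e_ag

open MeasureTheory Metric Set

theorem Md.comp {S T : Type} {ψ u : S → ℝ} (h : Md ψ u) {ψ' : T → ℝ} (h0 : ∀ x, 0 ≤ ψ' x)
    (f : T → S) {K : ℝ} (hK : 0 ≤ K) (hf : ∀ x, ψ (f x) ≤ K * ψ' x) : Md ψ' fun x => u (f x) := by
  obtain ⟨L, L0, hL⟩ := h
  refine ⟨L * K + L, by positivity, fun x => (hL _).trans (Real.exp_le_exp.2 ?_)⟩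
  nlinarith [mul_le_mul_of_nonneg_left (hf x) L0, mul_nonneg L0 (h0 x), mul_nonneg L0 hK]

theorem Md.lin {S : Type} {ψ u : S → ℝ} (h : Md ψ u) (h1 : ∀ x, 1 ≤ ψ x) :
    ∃ K : ℝ, 1 ≤ K ∧ ∀ x, u x ≤ Real.exp (K * ψ x) := by
  obtain ⟨L, L0, hL⟩ := h
  refine ⟨2 * L + 1, by linarith, fun x => (hL _).trans (Real.exp_le_exp.2 ?_)⟩
  nlinarith [mul_le_mul_of_nonneg_left (h1 x) L0, h1 x]

namespace Tw

variable {R P ι : Type} [CommRing R] [Fintype ι] {ev : P → R →+* ℂ} {s0 : P → ℝ}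
  {Δ : MvPolynomial ι R}

theorem log_sz (b : P) (a : ι → ℂ) :
    0 ≤ Real.log (1 + ‖a‖ + ‖MvPolynomial.eval₂ (ev b) a Δ‖⁻¹) :=
  Real.log_nonneg (by rw [add_assoc]; exact le_add_of_nonneg_right (by positivity))

theorem two_le_sz (h0 : ∀ b, 0 ≤ s0 b) (b : P) (a : ι → ℂ) : 2 ≤ sz ev s0 Δ b a := by
  unfold sz; linarith [log_sz (ev := ev) (Δ := Δ) b a, h0 b]

theorem s0_le_sz (b : P) (a : ι → ℂ) : s0 b ≤ sz ev s0 Δ b a := by
  unfold sz; linarith [log_sz (ev := ev) (Δ := Δ) b a]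

theorem le_exp_sz (h0 : ∀ b, 0 ≤ s0 b) (b : P) (a : ι → ℂ) :
    1 + ‖a‖ + ‖MvPolynomial.eval₂ (ev b) a Δ‖⁻¹ ≤ Real.exp (sz ev s0 Δ b a) :=
  (Real.log_le_iff_le_exp (by positivity)).1 (by unfold sz; linarith [h0 b])

theorem norm_le_sz (h0 : ∀ b, 0 ≤ s0 b) (b : P) (a : ι → ℂ) : ‖a‖ ≤ Real.exp (sz ev s0 Δ b a) :=
  le_trans (by linarith [inv_nonneg.2 (norm_nonneg (MvPolynomial.eval₂ (ev b) a Δ))])
    (le_exp_sz h0 b a)

theorem inv_le_sz (h0 : ∀ b, 0 ≤ s0 b) (b : P) (a : ι → ℂ) :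
    ‖MvPolynomial.eval₂ (ev b) a Δ‖⁻¹ ≤ Real.exp (sz ev s0 Δ b a) :=
  le_trans (by linarith [norm_nonneg a]) (le_exp_sz h0 b a)

/-- an upper bound for the size -/
theorem sz_le {b : P} {a : ι → ℂ} {L K : ℝ} (hL : 2 ≤ L) (hs : s0 b ≤ L)
    (h : 1 + ‖a‖ + ‖MvPolynomial.eval₂ (ev b) a Δ‖⁻¹ ≤ Real.exp (K * L)) :
    sz ev s0 Δ b a ≤ (K + 2) * L := by
  have := (Real.log_le_iff_le_exp (by positivity)).2 h
  unfold sz; linarith

theorem meas_val (g : MvPolynomial ι R) (b : P) :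
    Continuous fun a : ι → ℂ => MvPolynomial.eval₂ (ev b) a g := by
  simpa only [MvPolynomial.eval_map] using mv_cont (MvPolynomial.map (ev b) g)

theorem meas_sz (b : P) : Measurable (sz ev s0 Δ b) := by
  have := (meas_val (ev := ev) Δ b).measurable
  unfold sz; fun_prop

section md

variable {S : Type} {ψ : S → ℝ} (h0 : ∀ x, 0 ≤ ψ x)
include h0

theorem md_val {β : S → P} {α : S → ι → ℂ} (hs : ∀ φ, Md ψ fun x => ‖ev (β x) φ‖)
    (hα : Md ψ fun x => ‖α x‖) (g : MvPolynomial ι R) :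
    Md ψ fun x => ‖MvPolynomial.eval₂ (ev (β x)) (α x) g‖ := by
  induction g using MvPolynomial.induction_on with
  | C c => simpa using hs c
  | add p q hp hq =>
    exact (Md.add h0 hp hq).mono fun x => by rw [MvPolynomial.eval₂_add]; exact norm_add_le _ _
  | mul_X p i hp =>
    refine (hp.mul hα fun _ => norm_nonneg _).mono fun x => ?_
    rw [MvPolynomial.eval₂_mul, MvPolynomial.eval₂_X, norm_mul]
    exact mul_le_mul_of_nonneg_left (norm_le_pi_norm _ i) (norm_nonneg _)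

theorem md_poly {A : Type} [CommRing A] {E : S → A →+* ℂ} {t : S → ℂ}
    (hs : ∀ φ, Md ψ fun x => ‖E x φ‖) (ht : Md ψ fun x => ‖t x‖) (q : Polynomial A) :
    Md ψ fun x => ‖(q.map (E x)).eval (t x)‖ := by
  induction q using Polynomial.induction_on' with
  | add p q hp hq =>
    exact (Md.add h0 hp hq).mono fun x => by
      rw [Polynomial.map_add, Polynomial.eval_add]; exact norm_add_le _ _
  | monomial k g =>
    exact ((hs g).mul (ht.pow h0 (fun _ => norm_nonneg _) k) fun _ => by positivity).mono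
      fun x => by simp

end md

variable (ev s0 Δ) in
/-- the points off the hypersurface -/
abbrev Off : Type := {u : P × (ι → ℂ) // MvPolynomial.eval₂ (ev u.1) u.2 Δ ≠ 0}

section off

variable (h0 : ∀ b, 0 ≤ s0 b) (hmd : ∀ φ, Md s0 fun b => ‖ev b φ‖)
include h0 hmd

theorem md_off (g : MvPolynomial ι R) : Md (fun u : Off ev Δ => sz ev s0 Δ u.1.1 u.1.2)
    fun u => ‖MvPolynomial.eval₂ (ev u.1.1) u.1.2 g‖ :=
  have k : ∀ u : Off ev Δ, 0 ≤ sz ev s0 Δ u.1.1 u.1.2 := fun _ =>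
    zero_le_two.trans (two_le_sz h0 _ _)
  md_val k (fun φ => (hmd φ).comp k (fun u => u.1.1) zero_le_one fun u => by
    simpa using s0_le_sz _ _) (Md.exp.mono fun _ => norm_le_sz h0 _ _) g

theorem md_inv {g : MvPolynomial ι R} (hg : g ∣ Δ) :
    Md (fun u : Off ev Δ => sz ev s0 Δ u.1.1 u.1.2)
      fun u => ‖MvPolynomial.eval₂ (ev u.1.1) u.1.2 g‖⁻¹ := by
  obtain ⟨k, hk⟩ := hg
  refine ((Md.exp.mono fun u => inv_le_sz h0 _ _).mul (md_off h0 hmd k)
    fun _ => norm_nonneg _).mono fun u => le_of_eq ?_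
  have e : MvPolynomial.eval₂ (ev u.1.1) u.1.2 Δ =
      MvPolynomial.eval₂ (ev u.1.1) u.1.2 g * MvPolynomial.eval₂ (ev u.1.1) u.1.2 k := by
    rw [← MvPolynomial.eval₂_mul, ← hk]
  rw [e, norm_mul, mul_inv, inv_mul_cancel_right₀
    (norm_ne_zero_iff.2 (right_ne_zero_of_mul (e ▸ u.2)))]

end off

theorem val_ne_of_dvd {g : MvPolynomial ι R} (hg : g ∣ Δ) {b : P} {a : ι → ℂ}
    (h : MvPolynomial.eval₂ (ev b) a Δ ≠ 0) : MvPolynomial.eval₂ (ev b) a g ≠ 0 := by
  obtain ⟨k, rfl⟩ := hg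
  rw [MvPolynomial.eval₂_mul] at h
  exact left_ne_zero_of_mul h

namespace SS

variable {u v : P → (ι → ℂ) → ℝ}

theorem congr (h : SS ev Δ u) (e : ∀ b a, MvPolynomial.eval₂ (ev b) a Δ ≠ 0 → v b a = u b a) :
    SS ev Δ v :=
  let ⟨α, i, f, j, h⟩ := h; ⟨α, i, f, j, fun b a k => (e b a k).trans (h b a k)⟩

theorem mul (hu : SS ev Δ u) (hv : SS ev Δ v) : SS ev Δ fun b a => u b a * v b a := by
  obtain ⟨α, i, f, j, h⟩ := hu
  obtain ⟨α', i', f', j', h'⟩ := hv
  refine ⟨α × α', inferInstance, fun c => f c.1 * f' c.2, j + j', fun b a k => ?_⟩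
  beta_reduce
  rw [h b a k, h' b a k, Finset.sum_mul_sum, Fintype.sum_prod_type]
  simp only [MvPolynomial.eval₂_mul, pow_add, ← div_mul_div_comm, norm_mul, mul_pow]

theorem one : SS ev Δ fun _ _ => 1 := ⟨Unit, inferInstance, fun _ => 1, 0, fun _ _ _ => by simp⟩

theorem pow (hu : SS ev Δ u) (k : ℕ) : SS ev Δ fun b a => u b a ^ k := by
  induction k with
  | zero => simpa using one
  | succ k ih => simpa only [pow_succ] using ih.mul hu

theorem add (hu : SS ev Δ u) (hv : SS ev Δ v) : SS ev Δ fun b a => u b a + v b a := by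
  obtain ⟨α, i, f, j, h⟩ := hu
  obtain ⟨α', i', f', j', h'⟩ := hv
  refine ⟨α ⊕ α', inferInstance, Sum.elim (fun c => f c * Δ ^ j') fun c => f' c * Δ ^ j, j + j',
    fun b a k => ?_⟩
  beta_reduce
  rw [h b a k, h' b a k, Fintype.sum_sum_type]
  simp only [Sum.elim_inl, Sum.elim_inr, MvPolynomial.eval₂_mul, MvPolynomial.eval₂_pow]
  congr 1 <;> refine Finset.sum_congr rfl fun c _ => ?_
  · rw [pow_add, mul_div_mul_right _ _ (pow_ne_zero _ k)]
  · rw [pow_add, mul_comm (_ ^ j), mul_div_mul_right _ _ (pow_ne_zero _ k)]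

theorem sum {α : Type} (T : Finset α) {w : α → P → (ι → ℂ) → ℝ} (h : ∀ c ∈ T, SS ev Δ (w c)) :
    SS ev Δ fun b a => ∑ c ∈ T, w c b a := by
  classical
  induction T using Finset.induction_on with
  | empty => exact ⟨Empty, inferInstance, fun _ => 1, 0, fun _ _ _ => by simp⟩
  | insert c T hc ih =>
    simpa only [Finset.sum_insert hc] using (h c (Finset.mem_insert_self _ _)).add
      (ih fun c hc => h c (Finset.mem_insert_of_mem hc))

theorem frac (f : MvPolynomial ι R) {g : MvPolynomial ι R} (hg : g ∣ Δ) : SS ev Δ fun b a =>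
    ‖MvPolynomial.eval₂ (ev b) a f / MvPolynomial.eval₂ (ev b) a g‖ ^ 2 := by
  obtain ⟨k, rfl⟩ := hg
  refine ⟨Unit, inferInstance, fun _ => f * k, 1, fun b a h => ?_⟩
  simp only [MvPolynomial.eval₂_mul, pow_one, Finset.univ_unique, Finset.sum_singleton] at h ⊢
  rw [mul_div_mul_right _ _ (right_ne_zero_of_mul h)]

end SS

theorem lint_smul {E : Type} [NormedAddCommGroup E] [NormedSpace ℝ E] [MeasureSpace E]
    [BorelSpace E] [FiniteDimensional ℝ E] [(volume : Measure E).IsAddHaarMeasure] {r : ℝ}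
    (hr : 0 < r) (G : E → ENNReal) :
    ENNReal.ofReal (r ^ Module.finrank ℝ E) * ∫⁻ w, G (r • w) = ∫⁻ w, G w := by
  have := lintegral_map_equiv (μ := (volume : Measure E)) G (MeasurableEquiv.smul₀ r hr.ne')
  rw [MeasurableEquiv.coe_smul₀, Measure.map_addHaar_smul _ hr.ne', lintegral_smul_measure] at this
  rw [← this, smul_eq_mul, ← mul_assoc, ← ENNReal.ofReal_mul (by positivity),
    abs_of_pos (by positivity), mul_inv_cancel₀ (by positivity), ENNReal.ofReal_one, one_mul]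

theorem smul_mem {E : Type} [NormedAddCommGroup E] [NormedSpace ℂ E] {ε : ℝ} (h0 : 0 < ε)
    (h1 : ε ≤ 1) {w : E} (hw : w ∈ ball (0 : E) 1) : (ε : ℂ) • w ∈ ball (0 : E) 1 := by
  rw [mem_ball_zero_iff] at hw ⊢
  rw [norm_smul, Complex.norm_real, Real.norm_of_nonneg h0.le]
  nlinarith [norm_nonneg w]

/-- shrinking a polydisc -/
theorem Pd.shrink {a : ι → ℂ} {J ε : ℝ} {Q : (ι → ℂ) → ι → ℂ} (h : Pd a J Q) (h0 : 0 < ε)
    (h1 : ε ≤ 1) : Pd a (J * ε ^ (2 * Fintype.card ι)) fun w => Q ((ε : ℂ) • w) := by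
  classical
  refine ⟨by simpa using h.zero, h.hol.comp (f := fun w => (ε : ℂ) • w) (by fun_prop)
    fun w hw => smul_mem h0 h1 hw, fun F hF => le_trans ?_ (h.int F hF), ?_⟩
  · rw [ENNReal.ofReal_mul' (by positivity), mul_assoc, ← lintegral_indicator measurableSet_ball,
      ← lintegral_indicator measurableSet_ball,
      ← lint_smul h0 ((ball 0 1).indicator fun w => F (Q w)),
      show Module.finrank ℝ (ι → ℂ) = 2 * Fintype.card ι by
        simp [Module.finrank_pi_fintype, mul_comm]]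
    gcongr with w
    by_cases hw : w ∈ ball (0 : ι → ℂ) 1
    · rw [indicator_of_mem hw, ← Complex.coe_smul, indicator_of_mem (smul_mem h0 h1 hw)]
    · simp [hw]
  · have d := (h.hol.differentiableAt (ball_mem_nhds 0 one_pos)).hasFDerivAt
    have e : HasFDerivAt (fun w => Q ((ε : ℂ) • w)) ((ε : ℂ) • fderiv ℂ Q 0) 0 := by
      have := HasFDerivAt.comp (f := fun w : ι → ℂ => (ε : ℂ) • w) (0 : ι → ℂ)
        (by rw [smul_zero]; exact d) ((hasFDerivAt_id (0 : ι → ℂ)).const_smul (ε : ℂ))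
      exact this.congr_fderiv (by ext; simp)
    rw [e.fderiv, ContinuousLinearMap.det, ContinuousLinearMap.toLinearMap_smul, LinearMap.det_smul,
      Module.finrank_fintype_fun_eq_card, norm_mul, norm_pow, Complex.norm_real,
      Real.norm_of_nonneg h0.le, mul_pow, ← pow_mul, mul_comm, mul_comm (Fintype.card ι)]
    exact mul_le_mul_of_nonneg_left h.jac (by positivity)

variable {n : ℕ}

theorem lint_cons (F : (Fin (n + 1) → ℂ) → ENNReal) :
    ∫⁻ x, F x = ∫⁻ p : (Fin n → ℂ) × ℂ, F (Fin.cons p.2 p.1) := by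
  rw [((volume_preserving_piFinSuccAbove (fun _ : Fin (n + 1) => ℂ) 0).symm _).lintegral_map_equiv F,
    Measure.volume_eq_prod, ← lintegral_prod_swap, Measure.volume_eq_prod]
  simp [MeasurableEquiv.piFinSuccAbove, Fin.insertNthEquiv]

theorem norm_tail (x : Fin (n + 1) → ℂ) : ‖Fin.tail x‖ ≤ ‖x‖ :=
  (pi_norm_le_iff_of_nonneg (norm_nonneg _)).2 fun _ => norm_le_pi_norm x _

theorem tail_mem {w : Fin (n + 1) → ℂ} (hw : w ∈ ball (0 : Fin (n + 1) → ℂ) 1) :
    Fin.tail w ∈ ball (0 : Fin n → ℂ) 1 :=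
  mem_ball_zero_iff.2 ((norm_tail w).trans_lt (mem_ball_zero_iff.1 hw))

theorem norm_cons {s : ℂ} {a : Fin n → ℂ} {M : ℝ} (hs : ‖s‖ ≤ M) (ha : ‖a‖ ≤ M) :
    ‖(Fin.cons s a : Fin (n + 1) → ℂ)‖ ≤ M :=
  (pi_norm_le_iff_of_nonneg ((norm_nonneg _).trans hs)).2
    (Fin.cases hs fun i => (norm_le_pi_norm a i).trans ha)

theorem diff_tail : Differentiable ℂ fun x : Fin (n + 1) → ℂ => Fin.tail x :=
  differentiable_pi.2 fun i => differentiable_apply i.succ

/-- one more variable -/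
theorem Pd.cons {a : Fin n → ℂ} {J r : ℝ} {Q : (Fin n → ℂ) → Fin n → ℂ} (h : Pd a J Q)
    {ρ : (Fin n → ℂ) → ℂ} (hρ : DifferentiableOn ℂ ρ (ball 0 1)) (hr : 0 < r) :
    Pd (Fin.cons (ρ 0) a) (J * r ^ 2)
      fun w : Fin (n + 1) → ℂ => Fin.cons (ρ (Fin.tail w) + r * w 0) (Q (Fin.tail w)) := by
  classical
  have t0 : Fin.tail (0 : Fin (n + 1) → ℂ) = 0 := rfl
  have hd : DifferentiableOn ℂ (fun w : Fin (n + 1) → ℂ =>
      (Fin.cons (ρ (Fin.tail w) + r * w 0) (Q (Fin.tail w)) : Fin (n + 1) → ℂ)) (ball 0 1) :=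
    differentiableOn_pi.2 (Fin.cases
      ((hρ.comp diff_tail.differentiableOn fun w => tail_mem).add
        ((differentiable_apply 0).const_mul _).differentiableOn)
      fun i => differentiableOn_pi.1 (h.hol.comp diff_tail.differentiableOn fun w => tail_mem) i)
  refine ⟨by simp [t0, h.zero], hd, fun F hF => ?_, ?_⟩
  · have mc : Measurable fun p : (Fin n → ℂ) × ℂ => F (Fin.cons p.2 p.1) :=
      hF.comp (measurable_pi_iff.2 (Fin.cases measurable_snd fun i =>
        (measurable_pi_apply i).comp measurable_fst))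
    rw [lint_cons F, Measure.volume_eq_prod, lintegral_prod _ mc.aemeasurable,
      ← lintegral_indicator measurableSet_ball, lint_cons, Measure.volume_eq_prod,
      ENNReal.ofReal_mul' (by positivity), mul_assoc]
    refine le_trans ?_ (h.int _ mc.lintegral_prod_right')
    rw [← lintegral_indicator measurableSet_ball]
    gcongr
    refine (mul_le_mul_right (lintegral_prod_le _) _).trans ?_
    rw [← lintegral_const_mul' _ _ ENNReal.ofReal_ne_top]
    refine lintegral_mono fun y => ?_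
    by_cases hy : y ∈ ball (0 : Fin n → ℂ) 1
    · rw [indicator_of_mem hy, ← lintegral_add_left_eq_self (fun s => F (Fin.cons s (Q y))) (ρ y),
        ← lint_smul hr fun s => F (Fin.cons (ρ y + s) (Q y)), Complex.finrank_real_complex]
      gcongr with s
      exact (indicator_le_self _ _ _).trans_eq (by simp)
    · rw [indicator_of_notMem hy, lintegral_congr (g := fun _ => 0) fun s =>
        indicator_of_notMem (fun k => hy (by simpa using tail_mem k)) _]
      simp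
  · have b1 := ball_mem_nhds (0 : Fin n → ℂ) one_pos
    let T : (Fin (n + 1) → ℂ) →L[ℂ] (Fin n → ℂ) :=
      ContinuousLinearMap.pi fun i => ContinuousLinearMap.proj i.succ
    have d1 : HasFDerivAt (fun w : Fin (n + 1) → ℂ => Q (Fin.tail w)) (fderiv ℂ Q 0 ∘L T) 0 :=
      HasFDerivAt.comp (f := T) _ (h.hol.differentiableAt b1).hasFDerivAt T.hasFDerivAt
    have d2 : HasFDerivAt (fun w : Fin (n + 1) → ℂ => ρ (Fin.tail w) + r * w 0)
        (fderiv ℂ ρ 0 ∘L T + (r : ℂ) • ContinuousLinearMap.proj 0) 0 :=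
      (HasFDerivAt.comp (f := T) _ (hρ.differentiableAt b1).hasFDerivAt T.hasFDerivAt).add
        ((hasFDerivAt_apply 0 _).const_mul _)
    have d := (hd.differentiableAt (ball_mem_nhds 0 one_pos)).hasFDerivAt
    set L := fderiv ℂ (fun w : Fin (n + 1) → ℂ =>
      (Fin.cons (ρ (Fin.tail w) + r * w 0) (Q (Fin.tail w)) : Fin (n + 1) → ℂ)) 0
    have e0 : ∀ v, L v 0 = fderiv ℂ ρ 0 (T v) + r * v 0 := fun v =>
      DFunLike.congr_fun ((hasFDerivAt_pi'.1 d 0).unique d2) v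
    have e1 : ∀ v i, L v (Fin.succ i) = fderiv ℂ Q 0 (T v) i := fun v i =>
      DFunLike.congr_fun ((hasFDerivAt_pi'.1 d i.succ).unique (hasFDerivAt_pi'.1 d1 i)) v
    have z0 : T (Pi.single 0 1) = 0 := by ext i; simp [T]
    have z1 : ∀ j : Fin n, T (Pi.single j.succ 1) = Pi.single j 1 := fun j => by
      ext i; simp [T, Pi.single_apply]
    have : L.det = r * (fderiv ℂ Q 0).det := by
      rw [ContinuousLinearMap.det, ContinuousLinearMap.det, ← LinearMap.det_toMatrix',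
        ← LinearMap.det_toMatrix', Matrix.det_succ_column_zero, Fin.sum_univ_succ]
      simp only [LinearMap.toMatrix'_apply, ContinuousLinearMap.coe_coe, e0, e1, z0, map_zero]
      simp only [Fin.val_zero, pow_zero, Pi.single_eq_same, Pi.zero_apply, mul_zero, zero_mul,
        Finset.sum_const_zero, add_zero, zero_add, mul_one, one_mul, Fin.succAbove_zero]
      congr 2
      ext i j
      simp [LinearMap.toMatrix'_apply, e1, z1]
    rw [this, norm_mul, Complex.norm_real, Real.norm_of_nonneg hr.le, mul_pow, mul_comm]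
    exact mul_le_mul_of_nonneg_left h.jac (by positivity)

end Tw

end Pool.Agent.Lib.MP_5c318e_ag
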