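import Pool.Agent.Lib.MP_5c318e_ag.Bg.Sub
import Pool.Agent.Lib.MP_5c318e_ag.C.Pol
import Pool.Agent.Lib.MP_5c318e_ag.RD.RInt

/-! Squarefree parts with a certificate, and holomorphic roots over a ball. -/

set_option autoImplicit false

namespace Pool.Agent.Lib.MP_5c318e_ag.Tw

open Polynomial Filter Topology Set Metric

theorem clear {A : Type} [CommRing A] [IsDomain A] (p : (FractionRing A)[X]) :
    ∃ (β : A) (p' : A[X]), β ≠ 0 ∧
      p'.map (algebraMap A (FractionRing A)) = C (algebraMap A _ β) * p := by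
  obtain ⟨b, h1, h2⟩ := IsLocalization.integerNormalization_spec (nonZeroDivisors A) p
  exact ⟨b, _, nonZeroDivisors.ne_zero h1, by rw [h2, ← smul_eq_C_mul, algebraMap_smul]⟩

/-- a separable polynomial of positive degree whose zero set contains that of `g` -/
theorem sqf {A : Type} [CommRing A] [IsDomain A] [CharZero A] {g : A[X]} (hg : g ≠ 0) :
    ∃ (q a b : A[X]) (e c : A) (N : ℕ), e ≠ 0 ∧ c ≠ 0 ∧ 0 < q.natDegree ∧ q.coeff 0 = 0 ∧ 0 < N ∧
      q * a + derivative q * b = C e ∧ g ∣ C c * q ^ N := by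
  classical
  have inj := IsFractionRing.injective A (FractionRing A)
  have : CharZero (FractionRing A) := charZero_of_injective_algebraMap inj
  set φ := algebraMap A (FractionRing A) with hφ
  have G0 : X * g.map φ ≠ 0 := mul_ne_zero X_ne_zero ((Polynomial.map_ne_zero_iff inj).2 hg)
  obtain ⟨N, hN⟩ := UniqueFactorizationMonoid.exists_dvd_radical_self_pow G0
  set r := UniqueFactorizationMonoid.radical (X * g.map φ) with hr
  have r0 : r ≠ 0 := UniqueFactorizationMonoid.radical_ne_zero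
  obtain ⟨u, v, huv⟩ : r.Separable :=
    PerfectField.separable_iff_squarefree.2 UniqueFactorizationMonoid.squarefree_radical
  have hX : X ∣ r := prime_X.dvd_of_dvd_pow ((dvd_mul_right _ _).trans hN)
  obtain ⟨β, q, β0, hq⟩ := clear r
  obtain ⟨β1, u', h1, hu⟩ := clear u
  obtain ⟨β2, v', h2, hv⟩ := clear v
  obtain ⟨k, hk⟩ := (dvd_mul_left _ _).trans (hN.trans (pow_dvd_pow r N.le_succ))
  obtain ⟨c, k', h3, hk'⟩ := clear k
  rw [← hφ] at hq hu hv hk'
  refine ⟨q, C β2 * u', C β1 * v', β * β1 * β2, c, N + 1, mul_ne_zero (mul_ne_zero β0 h1) h2, h3,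
    ?_, inj ?_, N.succ_pos, map_injective φ inj ?_, C β ^ (N + 1) * k', map_injective φ inj ?_⟩
  · rw [← natDegree_map_eq_of_injective inj, hq, natDegree_C_mul ((map_ne_zero_iff φ inj).2 β0)]
    exact natDegree_X.ge.trans (natDegree_le_of_dvd hX r0)
  · rw [← coeff_map, hq, coeff_C_mul, X_dvd_iff.1 hX, mul_zero, map_zero]
  · simp only [Polynomial.map_add, Polynomial.map_mul, ← derivative_map, hq, hu, hv, map_C,
      derivative_C_mul, map_mul]
    linear_combination (C (φ β) * C (φ β1) * C (φ β2)) * huv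
  · simp only [Polynomial.map_mul, Polynomial.map_pow, hq, hk', map_C, mul_pow, hk]
    ring

section cover

variable {ι : Type} [Fintype ι] {S : Type} [TopologicalSpace S] [MeasurableSpace S] [T2Space S]
  {D : RD ι S} {U : Set (ι → ℂ)} {d : ℕ}

theorem sheets (hU : IsOpen U) (hc : ∀ a ∈ U, (D.π ⁻¹' {a}).encard = d) {a : ι → ℂ} (ha : a ∈ U) :
    ∀ᶠ b in 𝓝 a, ∀ p, D.π p = b → ∃ q, D.π q = a ∧ p = D.sec q b := by
  have fin := finite_of_encard_eq_coe (hc a ha)
  have h1 : ∀ᶠ b in 𝓝 a, ∀ q ∈ D.π ⁻¹' {a}, D.π (D.sec q b) = b :=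
    (eventually_all_finite fin).2 fun q hq => by
      have := D.π_sec_ev q; rwa [show D.π q = a from hq] at this
  have h2 : ∀ᶠ b in 𝓝 a, ∀ q ∈ D.π ⁻¹' {a}, ∀ q' ∈ D.π ⁻¹' {a},
      D.sec q b = D.sec q' b → q = q' :=
    (eventually_all_finite fin).2 fun q hq => (eventually_all_finite fin).2
      fun q' hq' => by
        by_cases e : q = q'
        · exact .of_forall fun _ _ => e
        have t1 := D.tendsto_sec q
        have t2 := D.tendsto_sec q'
        rw [show D.π q = a from hq] at t1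
        rw [show D.π q' = a from hq'] at t2
        exact ((t1.prodMk_nhds t2).eventually
          ((isOpen_ne_fun continuous_fst continuous_snd).mem_nhds e)).mono fun b hb h => (hb h).elim
  filter_upwards [h1, h2, hU.mem_nhds ha] with b k1 k2 k3 p hp
  have hs : (fun q => D.sec q b) '' (D.π ⁻¹' {a}) ⊆ D.π ⁻¹' {b} := by
    rintro _ ⟨q, hq, rfl⟩; exact k1 q hq
  have he := (finite_of_encard_eq_coe (hc b k3)).eq_of_subset_of_encard_le' hs (by
    rw [InjOn.encard_image fun q hq q' hq' e => k2 q hq q' hq' e, hc a ha, hc b k3])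
  obtain ⟨q, hq, e⟩ := he.ge hp
  exact ⟨q, hq, e.symm⟩

/-- a constant finite number of sheets gives a covering -/
theorem covering (hU : IsOpen U) (hm : ∀ p, D.π p ∈ U) (hc : ∀ a ∈ U, (D.π ⁻¹' {a}).encard = d) :
    IsCoveringMap fun p => (⟨D.π p, hm p⟩ : U) := by
  have fin : ∀ a : U, (D.π ⁻¹' {a.1}).Finite := fun a => finite_of_encard_eq_coe (hc a a.2)
  have cl : IsClosedMap fun p => (⟨D.π p, hm p⟩ : U) := by
    refine isClosedMap_iff_comap_nhds_le.2 fun {a} W hW => ?_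
    have h1 : ∀ᶠ b in 𝓝 a.1, ∀ q ∈ D.π ⁻¹' {a.1}, D.sec q b ∈ W :=
      (eventually_all_finite (fin a)).2 fun q hq => by
        have t := D.tendsto_sec q
        rw [show D.π q = a.1 from hq] at t
        exact t (mem_nhdsSet_iff_forall.1 hW q (Subtype.ext hq))
    refine mem_comap.2 ⟨_, continuous_subtype_val.continuousAt (h1.and (sheets hU hc a.2)), ?_⟩
    intro p hp
    obtain ⟨q, hq, e⟩ := hp.2 p rfl
    rw [e]; exact hp.1 q hq
  refine isCoveringMap_iff_isCoveringMapOn_univ.2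
    (cl.isCoveringMapOn_of_isLocalHomeomorphOn (fun a _ => ?_) ?_)
  · exact (fin a).subset fun p hp => congrArg Subtype.val hp
  · exact (IsLocalHomeomorph.of_comp (g := Subtype.val) (f := fun p => (⟨D.π p, hm p⟩ : U)) D.loc
      hU.isOpenEmbedding_subtypeVal.isLocalHomeomorph (D.cont_π.subtype_mk _)).isLocalHomeomorphOn

/-- all lifts of a map defined on the unit ball -/
theorem lifts (hU : IsOpen U) (hm : ∀ p, D.π p ∈ U) (hc : ∀ a ∈ U, (D.π ⁻¹' {a}).encard = d)
    {E : Type} [NormedAddCommGroup E] [NormedSpace ℝ E] {Q : E → ι → ℂ}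
    (hQ : ContinuousOn Q (ball 0 1)) (hs : ∀ w ∈ ball (0 : E) 1, Q w ∈ U) :
    ∃ σ : D.π ⁻¹' {Q 0} → E → S, (∀ k, σ k 0 = k) ∧ (∀ k, ContinuousOn (σ k) (ball 0 1)) ∧
      (∀ k, ∀ z ∈ ball (0 : E) 1, D.π (σ k z) = Q z) ∧
        ∀ z ∈ ball (0 : E) 1, Function.Injective (σ · z) := by
  classical
  have m0 : (0 : E) ∈ ball (0 : E) 1 := mem_ball_self one_pos
  let τ : E → U := fun w => if h : w ∈ ball (0 : E) 1 then ⟨Q w, hs w h⟩ else ⟨Q 0, hs 0 m0⟩
  have e : ∀ w ∈ ball (0 : E) 1, (τ w : ι → ℂ) = Q w := fun w h => by simp only [τ, dif_pos h]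
  obtain ⟨σ, h1, h2, h3, h4⟩ := Bg.exists_lifts (covering hU hm hc) (τ := τ) one_pos
    (IsInducing.subtypeVal.continuousOn_iff.2 (hQ.congr e))
  refine ⟨fun k => σ ⟨k, Subtype.ext (k.2.trans (e 0 m0).symm)⟩, fun k => h1 _, fun k => h2 _,
    fun k z hz => (congrArg Subtype.val (h3 _ z hz)).trans (e z hz), fun z hz k l h => ?_⟩
  exact Subtype.ext (congrArg Subtype.val (h4 z hz h) :)

end cover

theorem fac_of_inj {d : ℕ} {p : ℂ[X]} (hd : p.natDegree = d) {ρ : Fin d → ℂ}
    (hi : Function.Injective ρ) (hr : ∀ j, p.eval (ρ j) = 0) :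
    p = C p.leadingCoeff * Lagrange.nodal Finset.univ ρ := by
  have dv : Lagrange.nodal Finset.univ ρ ∣ p := Finset.prod_dvd_of_coprime
    (fun i _ j _ h => pairwise_coprime_X_sub_C hi h) fun j _ => dvd_iff_isRoot.2 (hr j)
  exact eq_leadingCoeff_mul_of_monic_of_dvd_of_natDegree_le Lagrange.nodal_monic dv (by simp [hd])

variable {ι : Type} [Fintype ι]

/-- holomorphic roots along a holomorphic map of a ball -/
theorem roots (q : (MvPolynomial ι ℂ)[X]) {U : Set (ι → ℂ)} (hU : IsOpen U) {d : ℕ}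
    (h : ∀ a ∈ U, (q.map (MvPolynomial.eval a)).Separable ∧
      (q.map (MvPolynomial.eval a)).natDegree = d)
    {E : Type} [NormedAddCommGroup E] [NormedSpace ℂ E] {Q : E → ι → ℂ}
    (hQ : DifferentiableOn ℂ Q (ball 0 1)) (hs : ∀ w ∈ ball (0 : E) 1, Q w ∈ U) :
    ∃ ρ : Fin d → E → ℂ, (∀ j, DifferentiableOn ℂ (ρ j) (ball 0 1)) ∧ ∀ w ∈ ball (0 : E) 1,
      Function.Injective (ρ · w) ∧ q.map (MvPolynomial.eval (Q w)) =
        C (q.map (MvPolynomial.eval (Q w))).leadingCoeff * Lagrange.nodal Finset.univ (ρ · w) := by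
  classical
  let T : Set ((ι → ℂ) × ℂ) := {u | u.1 ∈ U} ∩ {u | ev2 q u.1 u.2 = 0}
  have cq : Continuous fun u : (ι → ℂ) × ℂ => ev2 q u.1 u.2 :=
    continuous_iff_continuousAt.2 fun u => (ev2_analytic q u).continuousAt
  have : LocallyCompactSpace T := ((hU.preimage continuous_fst).isLocallyClosed.inter
    (isClosed_eq cq continuous_const).isLocallyClosed).locallyCompactSpace
  have dn : ∀ p : T, ev2 (derivative q) p.1.1 p.1.2 ≠ 0 := fun p => by
    have := (h _ p.2.1).1.aeval_derivative_ne_zero (x := p.1.2)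
      (by rw [coe_aeval_eq_eval, ← ev2_eq]; exact p.2.2)
    rwa [coe_aeval_eq_eval, derivative_map, ← ev2_eq] at this
  choose θ t1 t2 t3 t4 using fun p : T => exists_root q p.2.2 (dn p)
  have t5 : ∀ p : T, ∀ᶠ v in 𝓝 p, θ p v.1.1 = v.1.2 := fun p =>
    (continuous_subtype_val.continuousAt.eventually (t4 p)).mono fun v hv => hv v.2.2
  have loc : IsLocalHomeomorph fun p : T => p.1.1 := by
    refine isLocalHomeomorph_iff_isOpenEmbedding_restrict.2 fun p => ?_
    obtain ⟨W, hW, Wo, Wp⟩ := _root_.eventually_nhds_iff.1 (t5 p)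
    refine ⟨W, Wo.mem_nhds Wp, .of_continuous_injective_isOpenMap (by fun_prop)
      (fun v v' e => Subtype.ext (Subtype.ext (Prod.ext e ?_))) ?_⟩
    · rw [← hW _ v.2, ← hW _ v'.2]; exact congrArg _ e
    · refine IsOpenMap.domRestrict (isOpenMap_iff_nhds_le.2 fun v => ?_) Wo
      refine le_map fun V hV => ?_
      obtain ⟨V', hV', hsub⟩ := mem_nhds_subtype _ _ _ |>.1 hV
      have c : ContinuousAt (fun a => (a, θ v a)) v.1.1 :=
        continuousAt_id.prodMk (t1 v).continuousAt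
      have := c.eventually (show V' ∈ 𝓝 (v.1.1, θ v v.1.1) by rw [t2]; exact hV')
      refine mem_of_superset (this.and ((t3 v).and (hU.mem_nhds v.2.1))) fun a ⟨a1, a2, a3⟩ => ?_
      exact ⟨⟨(a, θ v a), a3, a2⟩, hsub a1, rfl⟩
  obtain ⟨D, hD⟩ := RD.exists_of _ loc
  have hw : D.Hol fun p => p.1.2 := fun p => by
    have e : D.π p = p.1.1 := congrFun hD p
    refine (e ▸ (t1 p).differentiableAt).congr_of_eventuallyEq ?_
    filter_upwards [(D.tendsto_sec p).eventually (t5 p), D.π_sec_ev p] with z h1 h2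
    rw [← h1, ← congrFun hD (D.sec p z), h2]
  have hc : ∀ a ∈ U, (D.π ⁻¹' {a}).encard = d := fun a ha => by
    have n0 := (h a ha).1.ne_zero
    have hi : InjOn (fun p : T => p.1.2) (D.π ⁻¹' {a}) := fun p hp p' hp' e => by
      rw [hD] at hp hp'
      exact Subtype.ext (Prod.ext (hp.trans hp'.symm) e)
    have e : (fun p : T => p.1.2) '' (D.π ⁻¹' {a}) =
        (q.map (MvPolynomial.eval a)).roots.toFinset := by
      ext s
      rw [Finset.mem_coe, Multiset.mem_toFinset, mem_roots n0, IsRoot, ← ev2_eq, hD]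
      constructor
      · rintro ⟨p, rfl, rfl⟩; exact p.2.2
      · exact fun k => ⟨⟨(a, s), ha, k⟩, rfl, rfl⟩
    rw [← hi.encard_image, e, encard_coe_eq_coe_finsetCard,
      Multiset.toFinset_card_of_nodup (nodup_roots (h a ha).1),
      ← (IsAlgClosed.splits _).natDegree_eq_card_roots, (h a ha).2]
  have m0 : (0 : E) ∈ ball (0 : E) 1 := mem_ball_self one_pos
  obtain ⟨σ, -, h2, h3, h4⟩ := lifts hU (fun p => hD ▸ p.2.1) hc hQ.continuousOn hs
  have fin := finite_of_encard_eq_coe (hc _ (hs 0 m0))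
  have := fin.fintype
  let e : D.π ⁻¹' {Q 0} ≃ Fin d := Fintype.equivFinOfCardEq (by
    have := hc _ (hs 0 m0)
    rw [encard_eq_coe_toFinset_card, toFinset_card] at this
    exact_mod_cast this)
  refine ⟨fun j w => (σ (e.symm j) w).1.2, fun j w hw' => (Bg.hol_map hw
    ((h2 _).continuousAt (isOpen_ball.mem_nhds hw'))
    ((hQ.differentiableAt (isOpen_ball.mem_nhds hw')).congr_of_eventuallyEq
      (mem_of_superset (isOpen_ball.mem_nhds hw') (h3 _)))).differentiableWithinAt, fun w hw' => ?_⟩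
  have p1 : ∀ k, (σ k w).1.1 = Q w := fun k => (congrFun hD _).symm.trans (h3 k w hw')
  have hi : Function.Injective fun j => (σ (e.symm j) w).1.2 := fun i j k =>
    e.symm.injective (h4 w hw' (Subtype.ext (Prod.ext ((p1 _).trans (p1 _).symm) k)))
  refine ⟨hi, fac_of_inj (h _ (hs w hw')).2 hi fun j => ?_⟩
  rw [← ev2_eq, ← p1 (e.symm j)]
  exact (σ (e.symm j) w).2.2

end Pool.Agent.Lib.MP_5c318e_ag.Tw
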