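import Pool.Agent.Lib.MP_5c318e_ag.Tw.Bas
import Pool.Agent.Lib.MP_5c318e_ag.Tw.One
import Pool.Agent.Lib.MP_5c318e_ag.Tw.Root

/-! One level of a tower: roots, their sizes and their distances. -/

set_option autoImplicit false

namespace Pool.Agent.Lib.MP_5c318e_ag.Tw

open MeasureTheory Metric Polynomial Finset

noncomputable section

theorem root_le {p : ℂ[X]} (hp : p ≠ 0) {t : ℂ} (ht : p.eval t = 0) :
    ‖t‖ ≤ (∑ i ∈ range p.natDegree, ‖p.coeff i‖) * ‖p.leadingCoeff‖⁻¹ + 1 := by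
  have h1 : ((‖t‖₊ : NNReal) : ℝ) ≤ (p.cauchyBound : ℝ) :=
    NNReal.coe_le_coe.2 (IsRoot.norm_lt_cauchyBound hp ht).le
  have h2 : (range p.natDegree).sup (fun i => ‖p.coeff i‖₊) ≤ ∑ i ∈ range p.natDegree, ‖p.coeff i‖₊ :=
    Finset.sup_le fun i hi => single_le_sum (f := fun i => ‖p.coeff i‖₊) (fun _ _ => zero_le) hi
  have h3 := NNReal.coe_le_coe.2 h2
  rw [cauchyBound, NNReal.coe_add, NNReal.coe_div, coe_nnnorm, coe_nnnorm, NNReal.coe_one] at h1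
  rw [NNReal.coe_sum] at h3
  refine h1.trans (add_le_add_left ?_ _)
  exact mul_le_mul_of_nonneg_right h3 (by positivity)

variable {R P : Type} [CommRing R] {n : ℕ} {ev : P → R →+* ℂ} {s0 : P → ℝ}

variable (ev) in
/-- the polynomial in the new variable at the point `y` -/
def pol (q : (MvPolynomial (Fin n) R)[X]) (b : P) (y : Fin n → ℂ) : ℂ[X] :=
  q.map (MvPolynomial.eval₂Hom (ev b) y)

/-- a polynomial in the new variable as a polynomial in all variables -/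
abbrev up (q : (MvPolynomial (Fin n) R)[X]) : MvPolynomial (Fin (n + 1)) R :=
  (MvPolynomial.finSuccEquiv R n).symm q

theorem val_up (q : (MvPolynomial (Fin n) R)[X]) (b : P) (x : Fin (n + 1) → ℂ) :
    MvPolynomial.eval₂ (ev b) x (up q) = (pol ev q b (Fin.tail x)).eval (x 0) := by
  have : MvPolynomial.eval₂Hom (ev b) x =
      (eval₂RingHom (MvPolynomial.eval₂Hom (ev b) (Fin.tail x)) (x 0)).comp
        (MvPolynomial.finSuccEquiv R n : _ →+* _) := by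
    refine MvPolynomial.ringHom_ext (fun r => ?_) (Fin.cases ?_ fun i => ?_)
    · simp [MvPolynomial.finSuccEquiv_apply]
    · simp [MvPolynomial.finSuccEquiv_X_zero]
    · simp [MvPolynomial.finSuccEquiv_X_succ, Fin.tail]
  rw [← MvPolynomial.coe_eval₂Hom, this, pol, eval_map]
  simp

theorem val_upC (g : MvPolynomial (Fin n) R) (b : P) (x : Fin (n + 1) → ℂ) :
    MvPolynomial.eval₂ (ev b) x (up (C g)) = MvPolynomial.eval₂ (ev b) (Fin.tail x) g := by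
  simp [val_up, pol]

theorem pol_hasse (q : (MvPolynomial (Fin n) R)[X]) (b : P) (y : Fin n → ℂ) (i : ℕ) :
    pol ev (hasseDeriv i q) b y = hasseDeriv i (pol ev q b y) := by
  ext k; simp [pol, hasseDeriv_coeff]

/-- the data of one level -/
structure Lv (q : (MvPolynomial (Fin n) R)[X]) (Δ' : MvPolynomial (Fin n) R) (d : ℕ) : Prop where
  deg : q.natDegree = d
  pos : 0 < d
  lc : q.leadingCoeff ∣ Δ'
  cert : ∃ u v e, q * u + derivative q * v = C e ∧ e ∣ Δ'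
  zero : q.coeff 0 = 0

/-- a list of the roots -/
def Fac {d : ℕ} (p : ℂ[X]) (ρ : Fin d → ℂ) : Prop :=
  Function.Injective ρ ∧ p.leadingCoeff ≠ 0 ∧ p = C p.leadingCoeff * Lagrange.nodal univ ρ

theorem Fac.root {d : ℕ} {p : ℂ[X]} {ρ : Fin d → ℂ} (h : Fac p ρ) (j : Fin d) :
    p.eval (ρ j) = 0 := by
  rw [h.2.2, eval_mul, Lagrange.eval_nodal_at_node (mem_univ j), mul_zero]

theorem Fac.ne_iff {d : ℕ} {p : ℂ[X]} {ρ : Fin d → ℂ} (h : Fac p ρ) (s : ℂ) :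
    p.eval s ≠ 0 ↔ ∀ j, s - ρ j ≠ 0 := by
  rw [h.2.2, eval_fac, mul_ne_zero_iff, prod_ne_zero_iff]
  simp [h.2.1]

namespace Lv

variable {q : (MvPolynomial (Fin n) R)[X]} {Δ' : MvPolynomial (Fin n) R} {d : ℕ} (H : Lv q Δ' d)
include H

theorem lc_eq {b : P} {y : Fin n → ℂ} (h : MvPolynomial.eval₂ (ev b) y Δ' ≠ 0) :
    (pol ev q b y).leadingCoeff = MvPolynomial.eval₂ (ev b) y q.leadingCoeff :=
  leadingCoeff_map_of_leadingCoeff_ne_zero _ (val_ne_of_dvd H.lc h)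

theorem deg_eq {b : P} {y : Fin n → ℂ} (h : MvPolynomial.eval₂ (ev b) y Δ' ≠ 0) :
    (pol ev q b y).natDegree = d :=
  (natDegree_map_of_leadingCoeff_ne_zero _ (val_ne_of_dvd H.lc h)).trans H.deg

theorem sep {b : P} {y : Fin n → ℂ} (h : MvPolynomial.eval₂ (ev b) y Δ' ≠ 0) :
    (pol ev q b y).Separable := by
  obtain ⟨u, v, e, h1, h2⟩ := H.cert
  have k := congrArg (Polynomial.map (MvPolynomial.eval₂Hom (ev b) y)) h1
  rw [Polynomial.map_add, Polynomial.map_mul, Polynomial.map_mul, map_C, ← derivative_map] at k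
  have e0 : MvPolynomial.eval₂Hom (ev b) y e ≠ 0 := val_ne_of_dvd h2 h
  refine ⟨C (MvPolynomial.eval₂Hom (ev b) y e)⁻¹ * pol ev u b y,
    C (MvPolynomial.eval₂Hom (ev b) y e)⁻¹ * pol ev v b y, ?_⟩
  rw [← C_1, ← inv_mul_cancel₀ e0, C_mul, ← k]
  unfold pol; ring

theorem lift (b : P) {Q : (Fin n → ℂ) → Fin n → ℂ} (hQ : DifferentiableOn ℂ Q (ball 0 1))
    (hs : ∀ w ∈ ball (0 : Fin n → ℂ) 1, MvPolynomial.eval₂ (ev b) (Q w) Δ' ≠ 0) :
    ∃ ρ : Fin d → (Fin n → ℂ) → ℂ, (∀ j, DifferentiableOn ℂ (ρ j) (ball 0 1)) ∧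
      ∀ w ∈ ball (0 : Fin n → ℂ) 1, Fac (pol ev q b (Q w)) (ρ · w) := by
  have e : ∀ a, (q.map (MvPolynomial.map (ev b))).map (MvPolynomial.eval a) = pol ev q b a :=
    fun a => by
      rw [Polynomial.map_map, pol]
      congr 1
      exact RingHom.ext fun g => MvPolynomial.eval_map _ _ _
  obtain ⟨ρ, h1, h2⟩ := roots (q.map (MvPolynomial.map (ev b)))
    (U := {a | MvPolynomial.eval₂ (ev b) a Δ' ≠ 0}) (isOpen_ne_fun (meas_val _ _) continuous_const)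
    (d := d) (fun a ha => by rw [e]; exact ⟨H.sep ha, H.deg_eq ha⟩) hQ hs
  refine ⟨ρ, h1, fun w hw => ⟨(h2 w hw).1, ?_, e _ ▸ (h2 w hw).2⟩⟩
  rw [H.lc_eq (hs w hw)]
  exact val_ne_of_dvd H.lc (hs w hw)

theorem fac {b : P} {y : Fin n → ℂ} (h : MvPolynomial.eval₂ (ev b) y Δ' ≠ 0) :
    ∃ ρ : Fin d → ℂ, Fac (pol ev q b y) ρ :=
  let ⟨ρ, _, k⟩ := H.lift b (Q := fun _ => y) (differentiableOn_const _) fun _ _ => h
  ⟨_, k 0 (mem_ball_self one_pos)⟩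

theorem has_zero {b : P} {y : Fin n → ℂ} {ρ : Fin d → ℂ} (h : Fac (pol ev q b y) ρ) :
    ∃ j, ρ j = 0 := by
  by_contra k
  refine (h.ne_iff 0).2 (fun j e => k ⟨j, by simpa using e⟩) ?_
  rw [← coeff_zero_eq_eval_zero, pol, coeff_map, H.zero, map_zero]

variable (h0 : ∀ b, 0 ≤ s0 b) (hmd : ∀ φ, Md s0 fun b => ‖ev b φ‖)
include h0 hmd

/-- sizes of the leading coefficient, of the roots and of their distances -/
theorem bound : ∃ K : ℝ, 1 ≤ K ∧ ∀ b y, MvPolynomial.eval₂ (ev b) y Δ' ≠ 0 → ∀ ρ : Fin d → ℂ,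
    Fac (pol ev q b y) ρ → ‖(pol ev q b y).leadingCoeff‖ ≤ Real.exp (K * sz ev s0 Δ' b y) ∧
      ‖(pol ev q b y).leadingCoeff‖⁻¹ ≤ Real.exp (K * sz ev s0 Δ' b y) ∧
      (∀ j, ‖ρ j‖ ≤ Real.exp (K * sz ev s0 Δ' b y)) ∧
      ∀ i j, i ≠ j → ‖ρ i - ρ j‖⁻¹ ≤ Real.exp (K * sz ev s0 Δ' b y) := by
  obtain ⟨u, v, e, h1, h2⟩ := H.cert
  let T := {x : Off ev Δ' × ℂ // (pol ev q x.1.1.1 x.1.1.2).eval x.2 = 0}
  let ψ : T → ℝ := fun x => sz ev s0 Δ' x.1.1.1.1 x.1.1.1.2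
  have p2 : ∀ x, 2 ≤ ψ x := fun _ => two_le_sz h0 _ _
  have p0 : ∀ x, 0 ≤ ψ x := fun x => zero_le_two.trans (p2 x)
  have m1 : ∀ g, Md ψ fun x => ‖MvPolynomial.eval₂ (ev x.1.1.1.1) x.1.1.1.2 g‖ := fun g =>
    (md_off h0 hmd g).comp p0 (fun x => x.1.1) zero_le_one fun _ => (one_mul _).ge
  have m2 : ∀ g, g ∣ Δ' → Md ψ fun x => ‖MvPolynomial.eval₂ (ev x.1.1.1.1) x.1.1.1.2 g‖⁻¹ :=
    fun g hg => (md_inv h0 hmd hg).comp p0 (fun x => x.1.1) zero_le_one fun _ => (one_mul _).ge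
  have m3 : Md ψ fun x => ‖x.1.2‖ := by
    refine (Md.add p0 ((Md.sum p0 (range d) fun i _ => m1 (q.coeff i)).mul (m2 _ H.lc)
      fun _ => by positivity) (Md.const p0 1)).mono fun x => ?_
    have := root_le (H.sep x.1.1.2).ne_zero x.2
    rw [H.deg_eq x.1.1.2, H.lc_eq x.1.1.2] at this
    simpa [pol] using this
  have m4 := md_poly p0 (E := fun x => MvPolynomial.eval₂Hom (ev x.1.1.1.1) x.1.1.1.2) m1 m3 v
  obtain ⟨K, K1, hK⟩ := (Md.add p0 (Md.add p0 (Md.add p0 (Md.add p0 (m1 q.leadingCoeff)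
    (m2 _ H.lc)) m3) m4) (m2 _ h2)).lin fun x => one_le_two.trans (p2 x)
  refine ⟨(2 * d + 3 : ℕ) * K, by push_cast; nlinarith [Nat.cast_nonneg (α := ℝ) d],
    fun b y hy ρ hρ => ?_⟩
  rw [mul_assoc, Real.exp_nat_mul, H.lc_eq hy]
  set M := Real.exp (K * sz ev s0 Δ' b y) with hM
  have M2 : 2 ≤ M := by
    have := Real.add_one_le_exp (K * sz ev s0 Δ' b y)
    nlinarith [two_le_sz (ev := ev) (Δ := Δ') h0 b y]
  have MM : M ≤ M ^ (2 * d + 3) := le_self_pow₀ (by linarith) (by omega)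
  have k : ∀ j, ‖MvPolynomial.eval₂ (ev b) y q.leadingCoeff‖ ≤ M ∧
      ‖MvPolynomial.eval₂ (ev b) y q.leadingCoeff‖⁻¹ ≤ M ∧ ‖ρ j‖ ≤ M ∧
      ‖(pol ev v b y).eval (ρ j)‖ ≤ M ∧ ‖MvPolynomial.eval₂ (ev b) y e‖⁻¹ ≤ M := fun j => by
    have := hK ⟨(⟨(b, y), hy⟩, ρ j), hρ.root j⟩
    change _ + _ + ‖ρ j‖ + ‖(pol ev v b y).eval (ρ j)‖ + _ ≤ M at this
    dsimp only at this
    have a1 := norm_nonneg (MvPolynomial.eval₂ (ev b) y q.leadingCoeff)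
    have a2 := inv_nonneg.2 a1
    have a3 := norm_nonneg (ρ j)
    have a4 := norm_nonneg ((pol ev v b y).eval (ρ j))
    have a5 := inv_nonneg.2 (norm_nonneg (MvPolynomial.eval₂ (ev b) y e))
    refine ⟨?_, ?_, ?_, ?_, ?_⟩ <;> linarith
  refine ⟨(k ⟨0, H.pos⟩).1.trans MM, (k ⟨0, H.pos⟩).2.1.trans MM, fun j => (k j).2.2.1.trans MM,
    fun i j hij => ?_⟩
  have c := congrArg (fun p => (p.map (MvPolynomial.eval₂Hom (ev b) y)).eval (ρ i)) h1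
  simp only [Polynomial.map_add, Polynomial.map_mul, map_C, ← derivative_map, eval_add, eval_mul,
    eval_C] at c
  rw [show (q.map _).eval (ρ i) = 0 from hρ.root i, zero_mul, zero_add] at c
  have c1 := deriv_le (l := (pol ev q b y).leadingCoeff) (by linarith : 1 ≤ M)
    (fun j => (k j).2.2.1) hij
  rw [← hρ.2.2, H.lc_eq hy] at c1
  have n0 := norm_pos_iff.2 (sub_ne_zero.2 (hρ.1.ne hij))
  have e0 := norm_pos_iff.2 (val_ne_of_dvd h2 hy)
  have c2 : ‖MvPolynomial.eval₂ (ev b) y e‖ ≤ M * ‖ρ i - ρ j‖ * (M ^ 2) ^ d * M := by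
    rw [← MvPolynomial.coe_eval₂Hom, ← c, norm_mul]
    refine mul_le_mul (c1.trans ?_) (k i).2.2.2.1 (norm_nonneg _) (by positivity)
    gcongr
    exacts [(k i).1, by nlinarith]
  rw [inv_le_iff_one_le_mul₀ n0]
  have c3 := mul_le_mul (k i).2.2.2.2 c2 e0.le (by positivity)
  rw [inv_mul_cancel₀ e0.ne'] at c3
  exact c3.trans_eq (by ring)

end Lv

end

end Pool.Agent.Lib.MP_5c318e_ag.Tw
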