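import Pool.Agent.Lib.MP_5c318e_ag.Tw.Lev

/-! The induction step for towers. -/

set_option autoImplicit false

namespace Pool.Agent.Lib.MP_5c318e_ag.Tw

open MeasureTheory Metric Polynomial Finset

noncomputable section

variable {R P : Type} [CommRing R] {n : ℕ} {ev : P → R →+* ℂ} {s0 : P → ℝ}
  {q : (MvPolynomial (Fin n) R)[X]} {Δ' : MvPolynomial (Fin n) R} {d N : ℕ}
  {Λ' : P → (Fin n → ℂ) → ℝ} {K' : ℝ} {M' : ℕ}

variable (q Δ' N) in
/-- the new hypersurface -/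
def nD : MvPolynomial (Fin (n + 1)) R := up (C Δ' * q ^ N)

variable (ev q d Λ') in
/-- the new density -/
def nL (b : P) (x : Fin (n + 1) → ℂ) : ℝ :=
  Λ' b (Fin.tail x) * lam d (pol ev q b (Fin.tail x)) (x 0)

theorem val_nD (b : P) (x : Fin (n + 1) → ℂ) : MvPolynomial.eval₂ (ev b) x (nD q Δ' N) =
    MvPolynomial.eval₂ (ev b) (Fin.tail x) Δ' * (pol ev q b (Fin.tail x)).eval (x 0) ^ N := by
  simp [nD, val_up, pol]

theorem nD_ne (hN : 0 < N) {b : P} {x : Fin (n + 1) → ℂ} :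
    MvPolynomial.eval₂ (ev b) x (nD q Δ' N) ≠ 0 ↔
      MvPolynomial.eval₂ (ev b) (Fin.tail x) Δ' ≠ 0 ∧ (pol ev q b (Fin.tail x)).eval (x 0) ≠ 0 := by
  rw [val_nD, mul_ne_zero_iff, pow_ne_zero_iff hN.ne']

theorem dvd_nD1 : up (C Δ') ∣ nD q Δ' N := map_dvd _ (dvd_mul_right _ _)

theorem dvd_nD2 (hN : 0 < N) : up q ∣ nD q Δ' N :=
  map_dvd _ ((dvd_pow_self q hN.ne').trans (dvd_mul_left _ _))

theorem lam_val (b : P) (x : Fin (n + 1) → ℂ) : lam d (pol ev q b (Fin.tail x)) (x 0) =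
    (∑ i ∈ range d, ‖MvPolynomial.eval₂ (ev b) x (up (hasseDeriv (i + 1) q)) /
      MvPolynomial.eval₂ (ev b) x (up q)‖ ^ (2 * (d.factorial / (i + 1)))) ^
        ((d.factorial : ℝ)⁻¹) := by
  simp only [lam, val_up, pol_hasse]

theorem step_meas (h : ∀ b, Measurable (Λ' b)) (b : P) : Measurable (nL ev q d Λ' b) := by
  refine ((h b).comp diff_tail.continuous.measurable).mul ?_
  simp only [lam_val]
  exact (Finset.measurable_sum _ fun i _ => ((meas_val _ b).measurable.div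
    (meas_val _ b).measurable).norm.pow_const _).pow_const _

theorem step_alg (hN : 0 < N) (h : ∃ k : ℕ, 0 < k ∧ SS ev Δ' fun b a => Λ' b a ^ k) :
    ∃ k : ℕ, 0 < k ∧ SS ev (nD q Δ' N) fun b x => nL ev q d Λ' b x ^ k := by
  obtain ⟨k, k0, α, _, f, j, h⟩ := h
  have h1 : SS ev (nD q Δ' N) fun b x => Λ' b (Fin.tail x) ^ k := by
    obtain ⟨g, hg⟩ := dvd_nD1 (q := q) (Δ' := Δ') (N := N)
    refine ⟨α, inferInstance, fun i => up (C (f i)) * g ^ j, j, fun b x hx => ?_⟩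
    refine (h b _ ((nD_ne hN).1 hx).1).trans (sum_congr rfl fun i _ => ?_)
    rw [hg, MvPolynomial.eval₂_mul] at hx
    rw [hg, MvPolynomial.eval₂_mul, MvPolynomial.eval₂_mul, MvPolynomial.eval₂_pow, mul_pow,
      mul_div_mul_right _ _ (pow_ne_zero _ (right_ne_zero_of_mul hx)), val_upC, val_upC]
  have h2 : SS ev (nD q Δ' N) fun b x => lam d (pol ev q b (Fin.tail x)) (x 0) ^ d.factorial :=
    (SS.sum (range d) fun i _ => (SS.frac (up (hasseDeriv (i + 1) q)) (dvd_nD2 hN)).pow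
      (d.factorial / (i + 1))).congr fun b x _ => by
        simp only [lam_pow, val_up, pol_hasse, pow_mul]
  refine ⟨k * d.factorial, Nat.mul_pos k0 d.factorial_pos,
    ((h1.pow d.factorial).mul (h2.pow k)).congr fun b x _ => ?_⟩
  rw [nL, mul_pow, ← pow_mul, ← pow_mul, mul_comm d.factorial]

theorem Fac.lam_low {p : ℂ[X]} {ρ : Fin d → ℂ} (h : Fac p ρ) {s : ℂ} {r : ℝ} {j : Fin d}
    (hj : ‖s - ρ j‖ ≤ r) (h0 : p.eval s ≠ 0) : 1 ≤ d ^ 2 * (lam d p s * r ^ 2) := by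
  rw [h.2.2] at h0 ⊢
  exact Tw.lam_low hj h0

theorem Fac.lam_up {p : ℂ[X]} {ρ : Fin d → ℂ} (h : Fac p ρ) {s : ℂ} {r : ℝ} (hr : 0 < r)
    (hj : ∀ j, r ≤ ‖s - ρ j‖) : lam d p s * r ^ 2 ≤ (d + 1) * 4 ^ d := by
  rw [h.2.2]
  exact Tw.lam_up hr hj h.2.1

theorem abs_log_le {x B : ℝ} (h0 : 0 < x) (h1 : x ≤ Real.exp B) (h2 : x⁻¹ ≤ Real.exp B) :
    |Real.log x| ≤ B := by
  have a := (Real.log_le_iff_le_exp h0).2 h1
  have b := (Real.log_le_iff_le_exp (inv_pos.2 h0)).2 h2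
  rw [Real.log_inv] at b
  exact abs_le.2 ⟨by linarith, a⟩

theorem four_le_exp {K L : ℝ} (hK : 1 ≤ K) (hL : 2 ≤ L) : 4 ≤ Real.exp (K * L) := by
  have h := Real.quadratic_le_exp_of_nonneg (x := 2) zero_le_two
  have := Real.exp_le_exp.2 (show 2 ≤ K * L by nlinarith)
  linarith

variable (H : Lv q Δ' d) (hN : 0 < N) (h0 : ∀ b, 0 ≤ s0 b) (hmd : ∀ φ, Md s0 fun b => ‖ev b φ‖)
  (T : Tow ev s0 Δ' Λ' K' M')
include H hN

include T in
theorem step_low (b : P) (x : Fin (n + 1) → ℂ) (hx : MvPolynomial.eval₂ (ev b) x (nD q Δ' N) ≠ 0) :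
    1 ≤ K' * d ^ 2 * nL ev q d Λ' b x * ∏ i, ‖x i‖ ^ 2 := by
  obtain ⟨h1, h2⟩ := (nD_ne hN).1 hx
  obtain ⟨ρ, hρ⟩ := H.fac h1
  obtain ⟨j, hj⟩ := H.has_zero hρ
  have := one_le_mul_of_one_le_of_one_le (T.low b _ h1)
    (hρ.lam_low (j := j) (r := ‖x 0‖) (by simp [hj]) h2)
  refine this.trans_eq ?_
  rw [Fin.prod_univ_succ, nL]
  simp only [Fin.tail]
  ring

include h0 hmd

theorem cmp : ∃ K : ℝ, 1 ≤ K ∧ ∀ b x, MvPolynomial.eval₂ (ev b) x (nD q Δ' N) ≠ 0 →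
    sz ev s0 Δ' b (Fin.tail x) ≤ K * sz ev s0 (nD q Δ' N) b x ∧
      ∀ ρ : Fin d → ℂ, Fac (pol ev q b (Fin.tail x)) ρ → ∀ j,
        ‖x 0 - ρ j‖ ≤ Real.exp (K * sz ev s0 (nD q Δ' N) b x) ∧
          ‖x 0 - ρ j‖⁻¹ ≤ Real.exp (K * sz ev s0 (nD q Δ' N) b x) := by
  obtain ⟨K1, k1, h1⟩ := H.bound h0 hmd
  have p2 : ∀ u : Off ev (nD q Δ' N), 2 ≤ sz ev s0 (nD q Δ' N) u.1.1 u.1.2 :=
    fun _ => two_le_sz h0 _ _
  have p0 := fun u => zero_le_two.trans (p2 u)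
  obtain ⟨K2, k2, h2⟩ := (Md.add p0 (Md.add p0 (Md.add p0 (Md.const p0 1)
    (Md.exp.mono fun u => norm_le_sz h0 _ _)) (md_inv h0 hmd dvd_nD1))
      (md_inv h0 hmd (dvd_nD2 hN))).lin fun u => one_le_two.trans (p2 u)
  have k3 : K2 + 2 ≤ K1 * (K2 + 2) := le_mul_of_one_le_left (by linarith) k1
  have k4 : K1 * (K2 + 2) ≤ (2 * d + 2 : ℕ) * (K1 * (K2 + 2)) :=
    le_mul_of_one_le_left (by linarith) (Nat.one_le_cast.2 (by omega))
  refine ⟨(2 * d + 2 : ℕ) * (K1 * (K2 + 2)), by linarith, fun b x hx => ?_⟩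
  obtain ⟨x1, x2⟩ := (nD_ne hN).1 hx
  have a := h2 ⟨(b, x), hx⟩
  simp only [val_upC, val_up q] at a
  have L2 : 2 ≤ sz ev s0 (nD q Δ' N) b x := two_le_sz h0 _ _
  have a0 := norm_le_sz (ev := ev) (Δ := nD q Δ' N) h0 b x
  set L := sz ev s0 (nD q Δ' N) b x with hL
  have i1 := inv_nonneg.2 (norm_nonneg (MvPolynomial.eval₂ (ev b) (Fin.tail x) Δ'))
  have i2 := inv_nonneg.2 (norm_nonneg ((pol ev q b (Fin.tail x)).eval (x 0)))
  have s1 : sz ev s0 Δ' b (Fin.tail x) ≤ (K2 + 2) * L :=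
    sz_le L2 (s0_le_sz _ _) (by linarith [norm_tail x])
  refine ⟨s1.trans (mul_le_mul_of_nonneg_right (k3.trans k4) (by linarith)), fun ρ hρ j => ?_⟩
  obtain ⟨b1, -, b3, -⟩ := h1 b _ x1 ρ hρ
  rw [mul_assoc, Real.exp_nat_mul]
  have M4 := four_le_exp (K := K1 * (K2 + 2)) (by linarith) L2
  have e1 : Real.exp (K1 * sz ev s0 Δ' b (Fin.tail x)) ≤ Real.exp (K1 * (K2 + 2) * L) :=
    Real.exp_le_exp.2 (by nlinarith)
  have e2 : Real.exp (K2 * L) ≤ Real.exp (K1 * (K2 + 2) * L) := Real.exp_le_exp.2 (by nlinarith)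
  set M := Real.exp (K1 * (K2 + 2) * L)
  have c : ∀ j, ‖x 0 - ρ j‖ ≤ M ^ 2 := fun j => by
    have := norm_sub_le (x 0) (ρ j)
    have := norm_le_pi_norm x 0
    nlinarith [b3 j]
  refine ⟨(c j).trans (pow_le_pow_right₀ (by linarith) (by omega)), ?_⟩
  have c1 := eval_le (l := (pol ev q b (Fin.tail x)).leadingCoeff) (by nlinarith) c j
  rw [← hρ.2.2] at c1
  have c2 : ‖(pol ev q b (Fin.tail x)).eval (x 0)‖ ≤ M * ‖x 0 - ρ j‖ * (M ^ 2) ^ d :=
    c1.trans (by gcongr; exact b1.trans e1)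
  have c3 := mul_le_mul (show ‖(pol ev q b (Fin.tail x)).eval (x 0)‖⁻¹ ≤ M by
    linarith [norm_nonneg x]) c2 (norm_nonneg _) (by linarith)
  rw [inv_mul_cancel₀ (norm_ne_zero_iff.2 x2)] at c3
  rw [inv_le_iff_one_le_mul₀ (norm_pos_iff.2 ((hρ.ne_iff _).1 x2 j))]
  exact c3.trans_eq (by ring)

include T

theorem step_mass : ∃ K : ℝ, 0 ≤ K ∧ ∀ M, M' + 2 ≤ M → ∀ b,
    ∫⁻ x in {x | MvPolynomial.eval₂ (ev b) x (nD q Δ' N) ≠ 0},
      ENNReal.ofReal (nL ev q d Λ' b x / sz ev s0 (nD q Δ' N) b x ^ M) ≤ ENNReal.ofReal K := by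
  obtain ⟨K, k1, hK⟩ := cmp H hN h0 hmd
  let c : ℝ := K ^ M' * (K + 1) ^ 2 * ((d + 1) * 4 ^ d)
  have c0 : 0 ≤ c := by positivity
  have fin : ENNReal.ofReal c * (d * ∫⁻ z, ker z) ≠ ⊤ :=
    ENNReal.mul_ne_top ENNReal.ofReal_ne_top (ENNReal.mul_ne_top (by simp) lint_ker.ne)
  refine ⟨(ENNReal.ofReal c * (d * ∫⁻ z, ker z) * ENNReal.ofReal K').toReal, by positivity,
    fun M hM b => ?_⟩
  rw [ENNReal.ofReal_toReal (ENNReal.mul_ne_top fin ENNReal.ofReal_ne_top),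
    ← lintegral_indicator (isOpen_ne_fun (meas_val _ b) continuous_const).measurableSet, lint_cons,
    Measure.volume_eq_prod]
  refine (lintegral_prod_le _).trans (le_trans ?_ (mul_le_mul_right (T.mass b) _))
  rw [← lintegral_const_mul' _ _ fin,
    ← lintegral_indicator (isOpen_ne_fun (meas_val _ b) continuous_const).measurableSet]
  refine lintegral_mono fun a => ?_
  by_cases ha : MvPolynomial.eval₂ (ev b) a Δ' ≠ 0
  swap
  · rw [lintegral_congr (g := fun _ => 0) fun s =>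
      Set.indicator_of_notMem (fun k => ha (by simpa using ((nD_ne hN).1 k).1)) _]
    simp
  obtain ⟨ρ, hρ⟩ := H.fac ha
  have e : ∫⁻ s, ∑ j, ker (s - ρ j) = d * ∫⁻ z, ker z := by
    rw [lintegral_finsetSum (f := fun j s => ker (s - ρ j)) _
      fun j _ => meas_ker.comp (measurable_id.sub_const (ρ j))]
    simp [lintegral_sub_right_eq_self]
  rw [Set.indicator_of_mem (by exact ha), ← e, mul_right_comm,
    ← lintegral_const_mul' _ _ (ENNReal.mul_ne_top ENNReal.ofReal_ne_top ENNReal.ofReal_ne_top)]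
  refine lintegral_mono fun s => ?_
  by_cases hx : MvPolynomial.eval₂ (ev b) (Fin.cons s a : Fin (n + 1) → ℂ) (nD q Δ' N) ≠ 0
  swap
  · exact (Set.indicator_of_notMem (by exact hx) _).trans_le zero_le
  refine (Set.indicator_of_mem (by exact hx) _).trans_le ?_
  obtain ⟨j, -, hj⟩ := exists_min_image univ (fun j => ‖s - ρ j‖) ⟨⟨0, H.pos⟩, mem_univ _⟩
  obtain ⟨a1, a2⟩ := hK b _ hx
  have x2 := ((nD_ne hN).1 hx).2
  simp only [Fin.tail_cons, Fin.cons_zero] at a1 a2 x2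
  have r0 := norm_pos_iff.2 ((hρ.ne_iff _).1 x2 j)
  have a3 := abs_log_le r0 (a2 ρ hρ j).1 (a2 ρ hρ j).2
  have a4 := hρ.lam_up r0 fun i => hj i (mem_univ _)
  have L2 : 2 ≤ sz ev s0 (nD q Δ' N) b (Fin.cons s a) := two_le_sz h0 _ _
  have L2' : 2 ≤ sz ev s0 Δ' b a := two_le_sz h0 _ _
  have l0 := (T.pos b a ha).le
  have l1 := lam_nonneg d (pol ev q b a) s
  refine le_trans ?_ (mul_le_mul_right (single_le_sum (f := fun j => ker (s - ρ j))
    (fun _ _ => zero_le) (mem_univ j)) _)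
  rw [ker, ← ENNReal.ofReal_mul c0, ← ENNReal.ofReal_mul (by positivity)]
  refine ENNReal.ofReal_le_ofReal ?_
  simp only [nL, Fin.tail_cons, Fin.cons_zero]
  set L := sz ev s0 (nD q Δ' N) b (Fin.cons s a)
  set L' := sz ev s0 Δ' b a
  have a5 : L' ^ M' * (1 + |Real.log ‖s - ρ j‖|) ^ 2 ≤ K ^ M' * (K + 1) ^ 2 * L ^ M := by
    refine (mul_le_mul (pow_le_pow_left₀ (by linarith) a1 M') (pow_le_pow_left₀ (by positivity)
      (show _ ≤ (K + 1) * L by linarith) 2) (by positivity) (by positivity)).trans ?_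
    rw [mul_pow, mul_pow, mul_mul_mul_comm, ← pow_add]
    exact mul_le_mul_of_nonneg_left (pow_le_pow_right₀ (by linarith) hM) (by positivity)
  rw [mul_one_div, ← mul_div_assoc, div_div, div_le_div_iff₀ (by positivity) (by positivity)]
  have a6 := mul_le_mul_of_nonneg_left (mul_le_mul a4 a5 (by positivity) (by positivity)) l0
  refine le_of_eq_of_le (by ring) (a6.trans_eq ?_)
  simp only [c]; ring

theorem step_disc : ∃ (K : ℝ) (m : ℕ), 0 ≤ K ∧ ∀ b x,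
    MvPolynomial.eval₂ (ev b) x (nD q Δ' N) ≠ 0 → ∃ J Q, Pd x J Q ∧
      1 ≤ J * nL ev q d Λ' b x * sz ev s0 (nD q Δ' N) b x ^ m ∧
      ∀ w ∈ ball (0 : Fin (n + 1) → ℂ) 1, MvPolynomial.eval₂ (ev b) (Q w) (nD q Δ' N) ≠ 0 ∧
        sz ev s0 (nD q Δ' N) b (Q w) ≤ K * sz ev s0 (nD q Δ' N) b x ∧
        nL ev q d Λ' b (Q w) ≤ K * nL ev q d Λ' b x ∧
        nL ev q d Λ' b x ≤ K * nL ev q d Λ' b (Q w) := by
  obtain ⟨K1, k1, h1⟩ := H.bound h0 hmd
  obtain ⟨K2, k2, h2⟩ := cmp H hN h0 hmd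
  have k' := T.one_le
  set A := K1 * K' * K2 with hA
  have a1 : K2 ≤ K' * K2 := le_mul_of_one_le_left (by linarith) k'
  have a2 : K' * K2 ≤ A := by rw [hA, mul_assoc]; exact le_mul_of_one_le_left (by linarith) k1
  obtain ⟨m0, hm0⟩ := pow_unbounded_of_one_lt (K2 ^ M' * (256 * A) ^ (2 * n) * (16 * d ^ 2))
    (one_lt_two (α := ℝ))
  let E : ℕ := (2 * d + 1) * N + 3
  let c : ℝ := K' * (4 * d ^ 2 * ((d + 1) * 4 ^ d))
  have c0 : 0 ≤ c := by positivity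
  have E0 : 0 ≤ E * A + 2 := by positivity
  refine ⟨E * A + 2 + c, M' + 2 * n + m0, by positivity, fun b x hx => ?_⟩
  obtain ⟨x1, x2⟩ := (nD_ne hN).1 hx
  obtain ⟨b1, b2⟩ := h2 b x hx
  have L2 : 2 ≤ sz ev s0 (nD q Δ' N) b x := two_le_sz h0 _ _
  have Ls : s0 b ≤ sz ev s0 (nD q Δ' N) b x := s0_le_sz _ _
  set L := sz ev s0 (nD q Δ' N) b x with hL
  obtain ⟨J, Q, pd, j1, hQ⟩ := T.disc b _ x1
  obtain ⟨ρ, r1, r2⟩ := H.lift b pd.hol fun w hw => (hQ w hw).1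
  have z0 : (0 : Fin n → ℂ) ∈ ball (0 : Fin n → ℂ) 1 := mem_ball_self one_pos
  have f0 : Fac (pol ev q b (Fin.tail x)) (ρ · 0) := pd.zero ▸ r2 0 z0
  have M4 := four_le_exp (K := A) (by linarith) L2
  have s1 : ∀ w ∈ ball (0 : Fin n → ℂ) 1, sz ev s0 Δ' b (Q w) ≤ K' * K2 * L := fun w hw => by
    nlinarith [(hQ w hw).2.1]
  have e1 : ∀ w ∈ ball (0 : Fin n → ℂ) 1,
      Real.exp (K1 * sz ev s0 Δ' b (Q w)) ≤ Real.exp (A * L) := fun w hw =>
    Real.exp_le_exp.2 (by nlinarith [s1 w hw])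
  have e2 : ∀ w ∈ ball (0 : Fin n → ℂ) 1, Real.exp (sz ev s0 Δ' b (Q w)) ≤ Real.exp (A * L) :=
    fun w hw => Real.exp_le_exp.2 (by nlinarith [s1 w hw])
  have e3 : Real.exp (K2 * L) ≤ Real.exp (A * L) := Real.exp_le_exp.2 (by nlinarith)
  have B1 : 1 ≤ 2 * A * L := by nlinarith
  have e4 : Real.exp (2 * A * L) = Real.exp (A * L) ^ 2 := by
    rw [← Real.exp_nat_mul, mul_assoc]; norm_num
  set M := Real.exp (A * L) with hM
  set ε := (128 * (2 * A * L))⁻¹ with hε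
  have ε0 : 0 < ε := by positivity
  have εB : ε * (128 * (2 * A * L)) = 1 := inv_mul_cancel₀ (by positivity)
  have ε1 : ε ≤ 1 := inv_le_one_of_one_le₀ (by linarith)
  have os : ∀ i j, ∀ w ∈ ball (0 : Fin n → ℂ) 1,
      ‖(ρ i ((ε : ℂ) • w) - ρ j ((ε : ℂ) • w)) - (ρ i 0 - ρ j 0)‖ ≤ ‖ρ i 0 - ρ j 0‖ / 8 := by
    intro i j w hw
    rcases eq_or_ne i j with rfl | hij
    · simp
    have nw : ‖(ε : ℂ) • w‖ ≤ ε := by
      rw [norm_smul, Complex.norm_real, Real.norm_of_nonneg ε0.le]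
      exact mul_le_of_le_one_right ε0.le (mem_ball_zero_iff.1 hw).le
    have ne : ∀ y ∈ ball (0 : Fin n → ℂ) 1, ρ i y - ρ j y ≠ 0 := fun y hy =>
      sub_ne_zero.2 ((r2 y hy).1.ne hij)
    refine (osc (h := fun y => ρ i y - ρ j y) B1 ((r1 i).sub (r1 j)) ne (fun y hy => ?_)
      (by nlinarith)).trans ?_
    · obtain ⟨-, -, u3, u4⟩ := h1 b _ (hQ y hy).1 _ (r2 y hy)
      refine abs_log_le (norm_pos_iff.2 (ne y hy)) ?_ ?_ <;> rw [e4]
      · nlinarith [norm_sub_le (ρ i y) (ρ j y), u3 i, u3 j, e1 y hy]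
      · nlinarith [u4 i j hij, e1 y hy]
    · rw [div_eq_inv_mul]
      exact mul_le_mul_of_nonneg_right (by nlinarith) (norm_nonneg _)
  obtain ⟨j0, -, hj⟩ := exists_min_image univ (fun j => ‖x 0 - ρ j 0‖) ⟨⟨0, H.pos⟩, mem_univ _⟩
  have n0 : ∀ j, 0 < ‖x 0 - ρ j 0‖ := fun j => norm_pos_iff.2 ((f0.ne_iff _).1 x2 j)
  set r := ‖x 0 - ρ j0 0‖ with hr
  have r0 : 0 < r := n0 j0
  have pc := (pd.shrink ε0 ε1).cons (ρ := fun y => ρ j0 ((ε : ℂ) • y) + (x 0 - ρ j0 0))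
    (((r1 j0).comp (f := fun y => (ε : ℂ) • y) (by fun_prop)
      fun y hy => smul_mem ε0 ε1 hy).add_const _) (r := r / 4) (by positivity)
  simp only [smul_zero, add_sub_cancel, Fin.cons_self_tail, Fintype.card_fin] at pc
  have lo := f0.lam_low (j := j0) le_rfl x2
  have hi := f0.lam_up r0 fun j => hj j (mem_univ _)
  have l0 := T.pos b _ x1
  have l1 := lam_nonneg d (pol ev q b (Fin.tail x)) (x 0)
  refine ⟨_, _, pc, ?_, fun w hw => ?_⟩
  · have L0 := two_le_sz (ev := ev) (Δ := Δ') h0 b (Fin.tail x)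
    have J0 : 0 ≤ J * Λ' b (Fin.tail x) :=
      ((mul_pos_iff_of_pos_right (by positivity)).1 (one_pos.trans_le j1)).le
    have u1 : 1 ≤ J * Λ' b (Fin.tail x) * (K2 * L) ^ M' :=
      j1.trans (mul_le_mul_of_nonneg_left (pow_le_pow_left₀ (by linarith) b1 _) J0)
    have u2 := one_le_mul_of_one_le_of_one_le (one_le_mul_of_one_le_of_one_le u1 lo)
      (one_le_pow₀ (n := 2 * n) εB.ge)
    have u3 := hm0.le.trans (pow_le_pow_left₀ zero_le_two L2 m0)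
    have u4 := mul_le_mul_of_nonneg_left u3 (show 0 ≤ J * Λ' b (Fin.tail x) * (ε ^ (2 * n) *
      (r / 4) ^ 2 * lam d (pol ev q b (Fin.tail x)) (x 0) * L ^ (M' + 2 * n)) by positivity)
    refine u2.trans (le_of_eq_of_le ?_ (u4.trans_eq ?_))
    · rw [show ε * (128 * (2 * A * L)) = ε * (256 * A) * L by ring]
      simp only [mul_pow, pow_add]
      ring
    · rw [nL]; ring
  have hy := smul_mem ε0 ε1 (tail_mem hw)
  set y := (ε : ℂ) • Fin.tail w with hyd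
  set S := ρ j0 y + (x 0 - ρ j0 0) + ((r / 4 : ℝ) : ℂ) * w 0 with hS
  have fy := r2 y hy
  have nr : ∀ j, ‖(S - ρ j y) - (x 0 - ρ j 0)‖ ≤ ‖x 0 - ρ j 0‖ / 2 := fun j => by
    have u1 := os j0 j _ (tail_mem hw)
    have u2 : ‖((r / 4 : ℝ) : ℂ) * w 0‖ ≤ r / 4 := by
      rw [norm_mul, Complex.norm_real, Real.norm_of_nonneg (by positivity)]
      exact mul_le_of_le_one_right (by positivity)
        ((norm_le_pi_norm w 0).trans (mem_ball_zero_iff.1 hw).le)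
    have u3 : ‖ρ j0 0 - ρ j 0‖ ≤ ‖x 0 - ρ j 0‖ + r := by
      rw [show ρ j0 0 - ρ j 0 = (x 0 - ρ j 0) - (x 0 - ρ j0 0) by ring]
      exact norm_sub_le _ _
    have u4 := hj j (mem_univ _)
    rw [show (S - ρ j y) - (x 0 - ρ j 0) =
      ((ρ j0 y - ρ j y) - (ρ j0 0 - ρ j 0)) + ((r / 4 : ℝ) : ℂ) * w 0 by rw [hS]; ring]
    linarith [norm_add_le ((ρ j0 y - ρ j y) - (ρ j0 0 - ρ j 0)) (((r / 4 : ℝ) : ℂ) * w 0)]
  have n1 : ∀ j, ‖x 0 - ρ j 0‖ / 2 ≤ ‖S - ρ j y‖ := fun j => by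
    linarith [nr j, norm_sub_norm_le (x 0 - ρ j 0) (S - ρ j y),
      norm_sub_rev (x 0 - ρ j 0) (S - ρ j y)]
  have n2 : ‖S - ρ j0 y‖ ≤ 2 * r := by
    linarith [nr j0, norm_sub_norm_le (S - ρ j0 y) (x 0 - ρ j0 0)]
  have y2 : (pol ev q b (Q y)).eval S ≠ 0 :=
    (fy.ne_iff _).2 fun j => norm_pos_iff.1 ((half_pos (n0 j)).trans_le (n1 j))
  obtain ⟨y1, -, y3, y4⟩ := hQ y hy
  have lo' := fy.lam_low n2 y2
  have hi' := fy.lam_up (half_pos r0) fun j => le_trans (by linarith [hj j (mem_univ _)]) (n1 j)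
  have l0' := T.pos b _ y1
  have l1' := lam_nonneg d (pol ev q b (Q y)) S
  refine ⟨(nD_ne hN).2 ⟨by simpa using y1, by simpa using y2⟩, ?_, ?_, ?_⟩
  · refine (sz_le (K := E * A) L2 Ls ?_).trans (by nlinarith)
    obtain ⟨-, u2, u3, -⟩ := h1 b _ y1 _ fy
    have v1 : ‖(Fin.cons S (Q y) : Fin (n + 1) → ℂ)‖ ≤ 3 * M := norm_cons (by
      linarith [norm_sub_norm_le S (ρ j0 y), u3 j0, e1 y hy, (b2 _ f0 j0).1])
      (by linarith [norm_le_sz (ev := ev) (Δ := Δ') h0 b (Q y), e2 y hy])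
    have v2 : ‖(pol ev q b (Q y)).eval S‖⁻¹ ≤ M ^ (2 * d + 1) := by
      rw [fy.2.2, eval_fac, norm_mul, norm_prod, mul_inv, ← prod_inv_distrib, pow_succ', pow_mul]
      refine mul_le_mul (u2.trans (e1 y hy)) ((prod_le_prod (fun _ _ => by positivity)
        fun j _ => ?_).trans_eq ((prod_const (M ^ 2)).trans (by simp))) (by positivity)
        (by linarith)
      have := inv_anti₀ (half_pos (n0 j)) (n1 j)
      rw [inv_div, div_eq_mul_inv] at this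
      nlinarith [(b2 _ f0 j).2]
    have v3 : ‖MvPolynomial.eval₂ (ev b) (Fin.cons S (Q y) : Fin (n + 1) → ℂ) (nD q Δ' N)‖⁻¹ ≤
        M ^ ((2 * d + 1) * N + 2) := by
      rw [val_nD, Fin.tail_cons, Fin.cons_zero, norm_mul, norm_pow, mul_inv, ← inv_pow, pow_add,
        pow_mul, mul_comm]
      exact mul_le_mul (pow_le_pow_left₀ (by positivity) v2 _)
        (((inv_le_sz h0 b _).trans (e2 y hy)).trans (by nlinarith)) (by positivity) (by positivity)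
    have v4 : M ^ 2 ≤ M ^ ((2 * d + 1) * N + 2) := pow_le_pow_right₀ (by linarith) (by omega)
    rw [mul_assoc, Real.exp_nat_mul, ← hM, show E = (2 * d + 1) * N + 2 + 1 from rfl, pow_succ]
    nlinarith
  · simp only [nL, Fin.tail_cons, Fin.cons_zero]
    have u : lam d (pol ev q b (Q y)) S ≤
        4 * d ^ 2 * ((d + 1) * 4 ^ d) * lam d (pol ev q b (Fin.tail x)) (x 0) := by
      have := mul_le_mul_of_nonneg_left hi' (show 0 ≤ 4 * (d : ℝ) ^ 2 *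
        lam d (pol ev q b (Fin.tail x)) (x 0) by positivity)
      nlinarith [mul_le_mul_of_nonneg_left lo l1']
    refine (mul_le_mul y3 u l1' (by positivity)).trans ?_
    rw [mul_mul_mul_comm]
    exact mul_le_mul_of_nonneg_right (by linarith) (by positivity)
  · simp only [nL, Fin.tail_cons, Fin.cons_zero]
    have u : lam d (pol ev q b (Fin.tail x)) (x 0) ≤
        4 * d ^ 2 * ((d + 1) * 4 ^ d) * lam d (pol ev q b (Q y)) S := by
      have := mul_le_mul_of_nonneg_left hi (show 0 ≤ 4 * (d : ℝ) ^ 2 *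
        lam d (pol ev q b (Q y)) S by positivity)
      nlinarith [mul_le_mul_of_nonneg_left lo' l1]
    refine (mul_le_mul y4 u l1 (by positivity)).trans ?_
    rw [mul_mul_mul_comm]
    exact mul_le_mul_of_nonneg_right (by linarith) (by positivity)

theorem step : ∃ (K : ℝ) (M : ℕ), Tow ev s0 (nD q Δ' N) (nL ev q d Λ') K M := by
  obtain ⟨K1, k1, h1⟩ := step_mass H hN h0 hmd T
  obtain ⟨K2, m, k2, h2⟩ := step_disc H hN h0 hmd T
  have k' := T.one_le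
  have k3 : 0 ≤ K' * d ^ 2 := by positivity
  have pos : ∀ b x, MvPolynomial.eval₂ (ev b) x (nD q Δ' N) ≠ 0 → 0 < nL ev q d Λ' b x :=
    fun b x hx => by
      have := step_low H hN T b x hx
      refine (mul_nonneg (T.pos b _ ((nD_ne hN).1 hx).1).le (lam_nonneg _ _ _)).lt_of_ne' fun e => ?_
      rw [show nL ev q d Λ' b x = 0 from e] at this
      norm_num at this
  refine ⟨K1 + K2 + K' * d ^ 2 + 1, M' + 2 + m, by linarith, step_meas T.meas, pos,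
    fun b x hx => (step_low H hN T b x hx).trans ?_, step_alg hN T.alg,
    fun b => (h1 _ (by omega) b).trans (ENNReal.ofReal_le_ofReal (by linarith)), fun b x hx => ?_⟩
  · have := pos b x hx
    gcongr
    linarith
  obtain ⟨J, Q, a1, a2, a3⟩ := h2 b x hx
  have L2 := two_le_sz (ev := ev) (Δ := nD q Δ' N) h0 b x
  refine ⟨J, Q, a1, a2.trans (mul_le_mul_of_nonneg_left (pow_le_pow_right₀ (by linarith) (by omega))
    ((mul_pos_iff_of_pos_right (by positivity)).1 (one_pos.trans_le a2)).le), fun w hw => ?_⟩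
  obtain ⟨b1, b2, b3, b4⟩ := a3 w hw
  have p1 := pos b x hx
  have p2 := pos b _ b1
  exact ⟨b1, b2.trans (by gcongr; linarith), b3.trans (by gcongr; linarith),
    b4.trans (by gcongr; linarith)⟩

end

end Pool.Agent.Lib.MP_5c318e_ag.Tw
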